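import Pool.Agent.Lib.FracGS.Defs

/-!
# Fractional Gyarfas-Sumner in graphs of large odd girth: basic lemmas
-/

set_option autoImplicit false

namespace Pool.Agent.Lib.FracGS

open Finset Classical

section Basic

variable {V : Type} {G : SimpleGraph V} {A A' X X' P S S' : Finset V} {ζ : V → ℝ}

lemma mem_nb {u v : V} : u ∈ nb G S v ↔ u ∈ S ∧ G.Adj v u := by
  simp [nb]

lemma nb_subset (v : V) : nb G S v ⊆ S := Finset.filter_subset _ _

lemma nb_mono (h : S ⊆ S') (v : V) : nb G S v ⊆ nb G S' v :=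
  Finset.filter_subset_filter _ h

lemma wnb_eq_sum_ite (v : V) : wnb G S ζ v = ∑ u ∈ S, if G.Adj v u then ζ u else 0 := by
  rw [wnb, nb, Finset.sum_filter]

lemma wnb_nonneg (h : ∀ v, 0 ≤ ζ v) (v : V) : 0 ≤ wnb G S ζ v :=
  Finset.sum_nonneg fun u _ => h u

lemma wnb_mono (h : ∀ v, 0 ≤ ζ v) (hS : S ⊆ S') (v : V) : wnb G S ζ v ≤ wnb G S' ζ v :=
  Finset.sum_le_sum_of_subset_of_nonneg (nb_mono hS v) fun u _ _ => h u

/-- Double counting. -/
lemma sum_mul_wnb (α : V → ℝ) :
    ∑ x ∈ X, α x * wnb G A ζ x = ∑ a ∈ A, ζ a * wnb G X α a := by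
  simp only [wnb_eq_sum_ite, Finset.mul_sum]
  rw [Finset.sum_comm]
  refine Finset.sum_congr rfl fun a _ => Finset.sum_congr rfl fun x _ => ?_
  by_cases h : G.Adj x a
  · rw [if_pos h, if_pos h.symm, mul_comm]
  · rw [if_neg h, if_neg fun h' => h h'.symm, mul_zero, mul_zero]

lemma om_comm (x p : V) : om G S ζ x p = om G S ζ p x := by
  unfold om
  refine Finset.sum_congr ?_ fun _ _ => rfl
  ext u
  simp only [Finset.mem_filter]
  tauto

lemma om_self (x : V) : om G S ζ x x = wnb G S ζ x := by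
  unfold om wnb nb
  simp

lemma om_nonneg (h : ∀ v, 0 ≤ ζ v) (x p : V) : 0 ≤ om G S ζ x p :=
  Finset.sum_nonneg fun u _ => h u

lemma om_le_left (h : ∀ v, 0 ≤ ζ v) (x p : V) : om G S ζ x p ≤ wnb G S ζ x := by
  unfold om wnb nb
  refine Finset.sum_le_sum_of_subset_of_nonneg ?_ fun u _ _ => h u
  intro u hu
  simp only [Finset.mem_filter] at hu ⊢
  exact ⟨hu.1, hu.2.1⟩

lemma om_mono (h : ∀ v, 0 ≤ ζ v) (hS : S ⊆ S') (x p : V) : om G S ζ x p ≤ om G S' ζ x p :=
  Finset.sum_le_sum_of_subset_of_nonneg (Finset.filter_subset_filter _ hS) fun u _ _ => h u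

end Basic

section NearRadius

variable {V : Type} {G : SimpleGraph V} {R R' : ℕ} {S S' : Finset V} {g : V → ℕ}

lemma Near.mono {c v : V} (h : Near G R c v) (hR : R ≤ R') : Near G R' c v := by
  obtain ⟨p, hp⟩ := h
  exact ⟨p, hp.trans hR⟩

lemma Near.refl (v : V) : Near G R v v := ⟨SimpleGraph.Walk.nil, Nat.zero_le _⟩

lemma Near.adj {c u v : V} (h : Near G R c u) (huv : G.Adj u v) : Near G (R + 1) c v := by
  obtain ⟨p, hp⟩ := h
  refine ⟨p.append (SimpleGraph.Walk.cons huv SimpleGraph.Walk.nil), ?_⟩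
  rw [SimpleGraph.Walk.length_append]
  simp only [SimpleGraph.Walk.length_cons, SimpleGraph.Walk.length_nil]
  omega

lemma Radius.mono (h : Radius G R S g) (hR : R ≤ R') (hS : S' ⊆ S) : Radius G R' S' g := by
  intro x hx
  obtain ⟨c, hc⟩ := h x (hS hx)
  exact ⟨c, fun y hy hg => (hc y (hS hy) hg).mono hR⟩

lemma Radius.of_injective (hg : Function.Injective g) : Radius G R S g := by
  intro x _
  refine ⟨x, fun y _ h => ?_⟩
  rw [hg h]
  exact Near.refl x

lemma NoOdd.mono {L L' : ℕ} (h : NoOdd G L) (hL : L' ≤ L) : NoOdd G L' :=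
  fun v p hp => h v p (by omega)

end NearRadius

section Schemes

variable {V : Type} {G : SimpleGraph V}

lemma Scheme.mono {A A1 X X1 A' X' : Finset V} {R R' : ℕ} {g : V → ℕ}
    (h : Scheme G A X R A' X' g) (hA : A ⊆ A1) (hX : X ⊆ X1) (hR : R ≤ R') :
    Scheme G A1 X1 R' A' X' g :=
  ⟨h.subA.trans hA, h.subX.trans hX, h.ex, h.const, h.rad.mono hR (Finset.Subset.refl _)⟩

lemma Scheme.empty (A X : Finset V) (R : ℕ) : Scheme G A X R ∅ ∅ (fun _ => 0) :=
  ⟨Finset.empty_subset _, Finset.empty_subset _, by simp, by simp, by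
    intro x hx
    simp at hx⟩

lemma TAdj.symm {k : ℕ} {u w : List (Fin k)} (h : TAdj u w) : TAdj w u := by
  rcases h with h | h
  · exact Or.inr h
  · exact Or.inl h

lemma TAdj.comm {k : ℕ} {u w : List (Fin k)} : TAdj u w ↔ TAdj w u :=
  ⟨TAdj.symm, TAdj.symm⟩

lemma LTree.mono {A A' X X' : Finset V} {d k : ℕ} {φ : List (Fin k) → V}
    (h : LTree G A' X' d k φ) (hA : A' ⊆ A) (hX : X' ⊆ X) : LTree G A X d k φ :=
  ⟨fun w hw hw' => hA (h.memA w hw hw'), fun w hw hw' => hX (h.memX w hw hw'), h.inj, h.adj⟩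

lemma NoTree.mono {A A' X X' : Finset V} {d k : ℕ} (h : NoTree G A X d k) (hA : A' ⊆ A)
    (hX : X' ⊆ X) : NoTree G A' X' d k :=
  fun φ hφ => h φ (hφ.mono hA hX)

end Schemes

section Bern

variable {ι : Type} [Fintype ι]

/-- The product formula for independent events. -/
lemma sum_bern_prod (p : ι → ℝ) (a b : ι → ℝ) :
    ∑ Z : Finset ι, bern p Z * ∏ i, (if i ∈ Z then a i else b i) =
      ∏ i, (p i * a i + (1 - p i) * b i) := by
  rw [Finset.prod_add, ← Finset.sum_congr (Finset.powerset_univ (α := ι)) fun _ _ => rfl]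
  refine Finset.sum_congr rfl fun Z _ => ?_
  unfold bern
  rw [← Finset.prod_mul_distrib]
  have h1 : ∀ i, ((if i ∈ Z then p i else 1 - p i) * (if i ∈ Z then a i else b i) : ℝ) =
      if i ∈ Z then p i * a i else (1 - p i) * b i := by
    intro i
    split_ifs <;> rfl
  simp only [h1]
  rw [Finset.prod_ite]
  congr 1
  · exact Finset.prod_congr (by ext i; simp) fun _ _ => rfl
  · exact Finset.prod_congr (by ext i; simp) fun _ _ => rfl

lemma sum_bern (p : ι → ℝ) : ∑ Z : Finset ι, bern p Z = 1 := by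
  have h := sum_bern_prod p (fun _ => 1) (fun _ => 1)
  simpa using h

lemma bern_nonneg {p : ι → ℝ} (h0 : ∀ i, 0 ≤ p i) (h1 : ∀ i, p i ≤ 1) (Z : Finset ι) :
    0 ≤ bern p Z := by
  unfold bern
  refine Finset.prod_nonneg fun i _ => ?_
  split_ifs
  · exact h0 i
  · linarith [h1 i]

/-- The probability that `Z` contains `B` and is disjoint from `C`. -/
lemma sum_bern_filter (p : ι → ℝ) (B C : Finset ι) (hBC : Disjoint B C) :
    ∑ Z ∈ (Finset.univ : Finset (Finset ι)).filter (fun Z => B ⊆ Z ∧ Disjoint C Z), bern p Z =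
      (∏ i ∈ B, p i) * ∏ i ∈ C, (1 - p i) := by
  have h := sum_bern_prod p (fun i => if i ∈ C then 0 else 1) (fun i => if i ∈ B then 0 else 1)
  have h1 : ∀ Z : Finset ι, ∏ i, (if i ∈ Z then (if i ∈ C then 0 else 1 : ℝ)
      else (if i ∈ B then 0 else 1)) = if B ⊆ Z ∧ Disjoint C Z then 1 else 0 := by
    intro Z
    by_cases hZ : B ⊆ Z ∧ Disjoint C Z
    · rw [if_pos hZ]
      refine Finset.prod_eq_one fun i _ => ?_
      by_cases hi : i ∈ Z
      · rw [if_pos hi, if_neg fun hc => Finset.disjoint_left.mp hZ.2 hc hi]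
      · rw [if_neg hi, if_neg fun hb => hi (hZ.1 hb)]
    · rw [if_neg hZ]
      rw [not_and_or] at hZ
      rcases hZ with hZ | hZ
      · rw [Finset.not_subset] at hZ
        obtain ⟨i, hi, hi'⟩ := hZ
        refine Finset.prod_eq_zero (Finset.mem_univ i) ?_
        rw [if_neg hi', if_pos hi]
      · rw [Finset.not_disjoint_iff] at hZ
        obtain ⟨i, hi, hi'⟩ := hZ
        refine Finset.prod_eq_zero (Finset.mem_univ i) ?_
        rw [if_pos hi', if_pos hi]
  simp only [h1, mul_ite, mul_one, mul_zero] at h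
  rw [← Finset.sum_filter] at h
  rw [h]
  have h2 : ∀ i, ((if i ∈ C then 0 else p i) + (if i ∈ B then 0 else 1 - p i) : ℝ) =
      (if i ∈ B then p i else 1) * (if i ∈ C then 1 - p i else 1) := by
    intro i
    by_cases hB : i ∈ B
    · have hC : i ∉ C := Finset.disjoint_left.mp hBC hB
      simp [hB, hC]
    · by_cases hC : i ∈ C
      · simp [hB, hC]
      · simp [hB, hC]
  simp only [h2]
  rw [Finset.prod_mul_distrib, Finset.prod_ite_mem, Finset.prod_ite_mem, Finset.univ_inter,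
    Finset.univ_inter]

lemma sum_bern_mem (p : ι → ℝ) (i : ι) :
    ∑ Z ∈ (Finset.univ : Finset (Finset ι)).filter (fun Z => i ∈ Z), bern p Z = p i := by
  have h := sum_bern_filter p {i} ∅ (Finset.disjoint_empty_right _)
  simpa using h

lemma sum_bern_mem2 (p : ι → ℝ) (i j : ι) (hij : i ≠ j) :
    ∑ Z ∈ (Finset.univ : Finset (Finset ι)).filter (fun Z => i ∈ Z ∧ j ∈ Z), bern p Z =
      p i * p j := by
  have h := sum_bern_filter p {i, j} ∅ (Finset.disjoint_empty_right _)
  rw [Finset.prod_pair hij] at h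
  simp only [Finset.prod_empty, mul_one] at h
  rw [← h]
  refine Finset.sum_congr ?_ fun _ _ => rfl
  ext Z
  simp [Finset.insert_subset_iff]

/-- The expected weight of `Z ∩ U`. -/
lemma sum_bern_card (p : ι → ℝ) (c : ι → ℝ) (U : Finset ι) :
    ∑ Z : Finset ι, bern p Z * ∑ i ∈ U.filter (fun i => i ∈ Z), c i = ∑ i ∈ U, p i * c i := by
  simp only [Finset.sum_filter, Finset.mul_sum]
  rw [Finset.sum_comm]
  refine Finset.sum_congr rfl fun i _ => ?_
  rw [← sum_bern_mem p i, Finset.sum_filter, Finset.sum_mul]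
  refine Finset.sum_congr rfl fun Z _ => ?_
  split_ifs <;> ring

end Bern

end Pool.Agent.Lib.FracGS
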