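import Pool.Agent.Lib.FracGS.Defs

/-!
# Fractional Gyarfas-Sumner in graphs of large odd girth: statements of the modules
-/

set_option autoImplicit false

namespace Pool.Agent.Lib.FracGS

open Finset Classical

/-- FG-1. Random assignments (average over all assignments of the finitely many relevant indices). -/
def StAssign : Prop :=
  ∀ (V I S : Type) [Fintype S] [Nonempty S] (Q : Finset V) (μ : V → ℝ) (D : V → Finset I)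
    (π : V → I → S) (k : ℕ), (∀ q ∈ Q, 0 ≤ μ q) → (∀ q ∈ Q, (D q).card ≤ k) →
    ∃ σ : I → S, ∑ q ∈ Q, μ q ≤
      (Fintype.card S : ℝ) ^ k * ∑ q ∈ Q.filter (fun q => ∀ i ∈ D q, σ i = π q i), μ q

/-- FG-2. The bounded cover lemma. -/
def StBC : Prop :=
  ∀ (V : Type) [Fintype V] (G : SimpleGraph V) (A X P Z Q : Finset V) (μ : V → ℝ) (ℓ : V → ℕ)
    (R M N : ℕ), (∀ v, 0 ≤ μ v) → P ⊆ X → Q ⊆ A → Radius G R P ℓ →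
    (∀ p ∈ P, (nb G Z p).card ≤ N) →
    (∀ q ∈ Q, (∃ p ∈ P, G.Adj q p) ∧ ∃ (t : ℕ) (W : Finset V), W ⊆ Z ∧ W.card ≤ M ∧
      ∀ p ∈ P, G.Adj q p → ℓ p = t ∨ ∃ z ∈ W, G.Adj z p) →
    ∃ (A' X' : Finset V) (g : V → ℕ), Scheme G A X (max R 1) A' X' g ∧
      ∑ q ∈ Q, μ q ≤ 3 ^ (M + 1 + N) * ∑ a ∈ A', μ a

/-- FG-3. The first optimisation. -/
def StSigma : Prop :=
  ∀ (V : Type) [Fintype V] (G : SimpleGraph V) (A X : Finset V) (κ : ℝ), 0 < κ →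
    ∃ σ τ : V → ℝ, (∀ v, 0 ≤ σ v ∧ σ v ≤ κ) ∧ (∀ x, 0 ≤ τ x) ∧
      (∀ x ∈ X, wnb G A σ x ≤ 1) ∧
      (∀ x ∈ X, 0 < τ x → 1 / 2 ≤ wnb G A σ x ∧ τ x ≤ 1) ∧
      (∀ a ∈ A, σ a < κ → 1 / 2 ≤ wnb G X τ a) ∧
      (∀ a ∈ A, 0 < σ a → wnb G X τ a ≤ 1)

/-- FG-4. The random subset of `X` (each `x` with probability `τ x / 2`). -/
def StSample : Prop :=
  ∀ (V : Type) [Fintype V] (G : SimpleGraph V) (A X : Finset V) (k : ℕ) (μ σ τ : V → ℝ),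
    1 ≤ k → (∀ v, 0 ≤ μ v) → (∀ v, 0 ≤ σ v ∧ σ v ≤ 1 / (8 * k)) → (∀ x, 0 ≤ τ x) →
    (∀ x ∈ X, wnb G A σ x ≤ 1) →
    (∀ x ∈ X, 0 < τ x → 1 / 2 ≤ wnb G A σ x ∧ τ x ≤ 1) →
    (∀ a ∈ A, σ a < 1 / (8 * k) → 1 / 2 ≤ wnb G X τ a) →
    (∀ a ∈ A, 0 < σ a → wnb G X τ a ≤ 1) →
    ∃ X1 X0 : Finset V, X1 ⊆ X ∧ X0 ⊆ X1 ∧
      (∀ x ∈ X0, k ≤ ((nb G A x).filter (fun a => ∀ y ∈ X1, G.Adj a y → y = x)).card) ∧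
      ∑ a ∈ A.filter (fun a => σ a < 1 / (8 * k)), μ a ≤
        320 * ∑ a ∈ A.filter (fun a => ∃ x ∈ X0, G.Adj a x), μ a

/-- FG-5. Attaching private neighbours to the leaves. -/
def StAttach : Prop :=
  ∀ (V : Type) [Fintype V] (G : SimpleGraph V) (A A0 X X1 X0 : Finset V) (d k : ℕ), 2 ≤ k →
    Disjoint A X → A0 ⊆ A → X1 ⊆ X → X0 ⊆ X1 →
    (∀ x ∈ X0, k ≤ ((nb G A x).filter (fun a => ∀ y ∈ X1, G.Adj a y → y = x)).card) →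
    (∃ φ, LTree G X0 A0 d k φ) → ∃ φ, LTree G A X (d + 1) k φ

/-- FG-6. Step L. -/
def StStepL : Prop := ∀ d k : ℕ, 2 ≤ k → ThX d k → ThA (d + 1) k

/-- FG-7. The second optimisation. -/
def StZeta : Prop :=
  ∀ (V : Type) [Fintype V] (G : SimpleGraph V) (A X : Finset V) (μ : V → ℝ),
    (∀ v, 0 ≤ μ v) → ∑ a ∈ A, μ a = 1 → (∀ a ∈ A, ∃ x ∈ X, G.Adj a x) →
    ∃ α ζ : V → ℝ, (∀ v, 0 ≤ α v) ∧ (∀ v, 0 ≤ ζ v) ∧ ∑ x ∈ X, α x = 1 ∧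
      (∀ a ∈ A, μ a = ζ a * wnb G X α a) ∧ ∀ x ∈ X, wnb G A ζ x ≤ 1

/-- FG-8. No tree implies bounded VC dimension. -/
def StVC : Prop :=
  ∀ d k : ℕ, ∃ D : ℕ, ∀ (V : Type) [Fintype V] (G : SimpleGraph V) (A X : Finset V),
    Disjoint A X → NoTree G X A d k →
      ∀ U ⊆ A, D ≤ U.card → ∃ T ⊆ U, ∀ p ∈ X, nb G U p ≠ T

/-- FG-9. The epsilon-net theorem for Bernoulli samples. -/
def StNet : Prop :=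
  ∀ (D : ℕ) (δ : ℝ), 0 < δ → ∃ r : ℝ, 1 ≤ r ∧
    ∀ (ι : Type) [Fintype ι] (ζ : ι → ℝ) (U : Finset ι) (𝒮 : Finset (Finset ι)),
      (∀ i, 0 ≤ ζ i) → (∀ i, r * ζ i ≤ 1) → ∑ i ∈ U, ζ i ≤ 1 →
      (∀ S ∈ 𝒮, S ⊆ U ∧ δ < ∑ i ∈ S, ζ i) →
      (∀ T ⊆ U, D ≤ T.card → ¬ 𝒮.Shatters T) →
      ∑ Z ∈ (Finset.univ : Finset (Finset ι)).filter (fun Z => ∃ S ∈ 𝒮, Disjoint S Z),
        bern (fun i => r * ζ i) Z ≤ 1 / 4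

/-- FG-10. The choice of the sparse hitting set `Z`. -/
def StPickZ : Prop :=
  ∀ (D : ℕ) (δ : ℝ), 0 < δ → ∃ (κ : ℝ) (N : ℕ), 0 < κ ∧
    ∀ (V : Type) [Fintype V] (G : SimpleGraph V) (A X : Finset V) (ζ α : V → ℝ),
      (∀ v, 0 ≤ ζ v) → (∀ a ∈ A, ζ a ≤ κ) → (∀ v, 0 ≤ α v) → (∀ x ∈ X, wnb G A ζ x ≤ 1) →
      (∀ U ⊆ A, D ≤ U.card → ∃ T ⊆ U, ∀ p ∈ X, nb G U p ≠ T) →
      ∃ Z Xn : Finset V, Z ⊆ A ∧ Xn ⊆ X ∧ ∑ x ∈ X, α x ≤ 2 * ∑ x ∈ Xn, α x ∧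
        (∀ x ∈ Xn, (nb G Z x).card ≤ N) ∧
        ∀ x ∈ Xn, ∀ p ∈ X, δ < om G A ζ x p → ∃ z ∈ Z, G.Adj z x ∧ G.Adj z p

/-- FG-11. Sets without `K` separated points have small covers. -/
def StCover : Prop :=
  ∀ (V : Type) [Fintype V] (G : SimpleGraph V) (A X Xn Z Q : Finset V) (ζ : V → ℝ) (δ : ℝ)
    (K N : ℕ), (∀ x ∈ Xn, (nb G Z x).card ≤ N) →
    (∀ x ∈ Xn, ∀ p ∈ X, δ < om G A ζ x p → ∃ z ∈ Z, G.Adj z x ∧ G.Adj z p) →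
    (∀ x ∈ X, δ < om G A ζ x x) → Xn ⊆ X → Q ⊆ Xn → ¬ Sep G A ζ δ K (fun x => x ∈ Q) →
    ∃ W ⊆ Z, W.card ≤ K * N ∧ ∀ p ∈ Q, ∃ z ∈ W, G.Adj z p

/-- FG-12. The embedding lemma: without the tree, at least half of the neighbours of each `x ∈ X`
are not rich at the top level. -/
def StEmbed : Prop :=
  ∀ d k : ℕ, 1 ≤ d → ∃ (δ : ℝ) (K : ℕ) (κ : ℝ), 0 < δ ∧ δ < 1 / 4 ∧ 0 < κ ∧
    ∀ (V : Type) [Fintype V] (G : SimpleGraph V) (A X : Finset V) (ζ : V → ℝ),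
      Disjoint A X → (∀ v, 0 ≤ ζ v) → (∀ a ∈ A, ζ a ≤ κ) →
      (∀ x ∈ X, 1 / 4 ≤ wnb G A ζ x ∧ wnb G A ζ x ≤ 1) → NoTree G X A d k →
      ∀ x ∈ X, wnb G A ζ x ≤
        2 * ∑ q ∈ (nb G A x).filter (fun q => ¬ Rich G A X ζ δ K ((d - 1) / 2) q ∅), ζ q

/-- FG-13. The phases. -/
def StPhases : Prop :=
  ∀ d k : ℕ, ThA d k → ∀ K N i : ℕ, ∃ (c : ℝ) (R : ℕ), 0 < c ∧
    ∀ (V : Type) [Fintype V] (G : SimpleGraph V) (A X Xn Z : Finset V) (μ α ζ : V → ℝ) (δ : ℝ),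
      Ctx G A X Xn Z μ α ζ δ d k N → ∀ (P : Finset V) (ℓ : V → ℕ) (F : V → Finset V),
        State G A X Xn ζ δ K R i P ℓ F →
          ∃ (A' X' : Finset V) (g : V → ℕ), Scheme G A X R A' X' g ∧
            c * ∑ x ∈ P, α x ≤ ∑ a ∈ A', μ a

/-- FG-14. Step M. -/
def StStepM : Prop := ∀ d k : ℕ, 1 ≤ d → ThA d k → ThX d k

/-- FG-15. The theorem on bipartite graphs. -/
def StMain : Prop := ∀ d k : ℕ, 1 ≤ d → 2 ≤ k → ThA d k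

/-- FG-16. Making the classes of a labelling stable. -/
def StParity : Prop :=
  ∀ (V : Type) [Fintype V] (G : SimpleGraph V) (A : Finset V) (μ : V → ℝ) (f : V → ℕ) (R : ℕ),
    (∀ v, 0 ≤ μ v) → NoOdd G R → Radius G R A f →
    ∃ A1 ⊆ A, ∑ v ∈ A, μ v ≤ 2 * ∑ v ∈ A1, μ v ∧
      ∀ u ∈ A1, ∀ v ∈ A1, G.Adj u v → f u ≠ f v

/-- FG-17. Splitting into two sides with different labels. -/
def StSides : Prop :=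
  ∀ (V : Type) [Fintype V] (G : SimpleGraph V) (A1 A2 : Finset V) (μ : V → ℝ) (s : ℕ)
    (f : ℕ → V → ℕ), (∀ v, 0 ≤ μ v) →
    (∀ v ∈ A2, ∃ u ∈ A1, G.Adj v u ∧ ∀ t < s, f t v ≠ f t u) →
    ∃ P Y : Finset V, P ⊆ A2 ∧ Y ⊆ A1 ∧ Disjoint P Y ∧ (∀ v ∈ P, ∃ u ∈ Y, G.Adj v u) ∧
      (∀ t < s, ∀ v ∈ P, ∀ y ∈ Y, f t v ≠ f t y) ∧
      ∑ v ∈ A2, μ v ≤ 4 ^ (s + 1) * ∑ v ∈ P, μ v

/-- FG-18. A copy of the big tree in a graph of large odd girth contains all small trees. -/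
def StTreePat : Prop :=
  ∀ (par : ℕ → ℕ) (n : ℕ), 1 ≤ n → (∀ j, 1 ≤ j → par j < j) →
    ∀ (V : Type) [Fintype V] (G : SimpleGraph V) (A X : Finset V)
      (φ : List (Fin (n + 1)) → V), Disjoint A X → NoOdd G n → LTree G A X n (n + 1) φ →
        Nonempty (pat par n ↪g G)

/-- FG-19. The induction on the tree: a heavy stable set, or a rainbow induced copy of the tree. -/
def StGamma : Prop :=
  ∀ (par : ℕ → ℕ) (n : ℕ), 1 ≤ n → (∀ j, 1 ≤ j → par j < j) → ∀ m, 1 ≤ m → ∀ s R : ℕ,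
    ∃ (L : ℕ) (C : ℝ), 0 < C ∧ ∀ (V : Type) [Fintype V] (G : SimpleGraph V), NoOdd G L →
      IsEmpty (pat par n ↪g G) → ∀ (A : Finset V) (μ : V → ℝ) (f : ℕ → V → ℕ),
        (∀ v, 0 ≤ μ v) → (∀ t < s, Radius G R A (f t)) →
        (∃ T ⊆ A, (∀ u ∈ T, ∀ v ∈ T, ¬ G.Adj u v) ∧ ∑ v ∈ A, μ v ≤ C * ∑ v ∈ T, μ v) ∨
        ∃ v : ℕ → V, RCopy G par m A s f v

/-- FG-20. The theorem on trees. -/
def StHeavy : Prop :=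
  ∀ (par : ℕ → ℕ) (n : ℕ), 1 ≤ n → (∀ j, 1 ≤ j → par j < j) →
    ∃ (L : ℕ) (C : ℝ), 0 < C ∧ ∀ (V : Type) [Fintype V] (G : SimpleGraph V), NoOdd G L →
      IsEmpty (pat par n ↪g G) → ∀ μ : V → ℝ, (∀ v, 0 ≤ μ v) →
        ∃ T : Finset V, (∀ u ∈ T, ∀ v ∈ T, ¬ G.Adj u v) ∧ ∑ v, μ v ≤ C * ∑ v ∈ T, μ v

end Pool.Agent.Lib.FracGS
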