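import Pool.Agent.Lib.FracGS.Base
import Pool.Agent.Lib.FracGS.Spec

/-!
# Fractional Gyarfas-Sumner in graphs of large odd girth: the random subset (FG-4)
-/

set_option autoImplicit false

namespace Pool.Agent.Lib.FracGS

open Finset Classical

namespace Sample

section Gen

variable {ι : Type} [Fintype ι]

lemma exists_ge_bern {p : ι → ℝ} (h0 : ∀ i, 0 ≤ p i) (h1 : ∀ i, p i ≤ 1) (f : Finset ι → ℝ)
    (c : ℝ) (h : c ≤ ∑ Z : Finset ι, bern p Z * f Z) : ∃ Z, c ≤ f Z := by
  by_contra hcon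
  push Not at hcon
  have hpos : ∃ Z : Finset ι, 0 < bern p Z := by
    by_contra hn
    push Not at hn
    have hs : ∑ Z : Finset ι, bern p Z ≤ 0 := Finset.sum_nonpos fun Z _ => hn Z
    rw [sum_bern] at hs
    linarith
  obtain ⟨Z0, hZ0⟩ := hpos
  have hlt : ∑ Z : Finset ι, bern p Z * f Z < ∑ Z : Finset ι, bern p Z * c := by
    refine Finset.sum_lt_sum
      (fun Z _ => mul_le_mul_of_nonneg_left (hcon Z).le (bern_nonneg h0 h1 Z))
      ⟨Z0, Finset.mem_univ _, ?_⟩
    exact mul_lt_mul_of_pos_left (hcon Z0) hZ0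
  rw [← Finset.sum_mul, sum_bern, one_mul] at hlt
  linarith

/-- The second moment of the number of points of `S` in `Z`. -/
lemma sum_bern_sq {p : ι → ℝ} (S : Finset ι) :
    ∑ Z : Finset ι, bern p Z * ((S.filter (fun i => i ∈ Z)).card : ℝ) ^ 2 ≤
      (∑ i ∈ S, p i) + (∑ i ∈ S, p i) ^ 2 := by
  have h1 : ∀ Z : Finset ι, ((S.filter (fun i => i ∈ Z)).card : ℝ) ^ 2 =
      ∑ i ∈ S, ∑ j ∈ S, if (i ∈ Z ∧ j ∈ Z) then (1 : ℝ) else 0 := by
    intro Z
    have h2 : ((S.filter (fun i => i ∈ Z)).card : ℝ) = ∑ i ∈ S, if i ∈ Z then (1 : ℝ) else 0 := by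
      rw [Finset.card_filter]
      push_cast
      rfl
    rw [h2, sq, Finset.sum_mul_sum]
    refine Finset.sum_congr rfl fun i _ => Finset.sum_congr rfl fun j _ => ?_
    by_cases hi : i ∈ Z <;> by_cases hj : j ∈ Z <;> simp [hi, hj]
  have h3 : ∀ i j : ι, ∑ Z : Finset ι, bern p Z * (if (i ∈ Z ∧ j ∈ Z) then (1 : ℝ) else 0) ≤
      (if i = j then p i else 0) + p i * p j := by
    intro i j
    have h4 : ∑ Z : Finset ι, bern p Z * (if (i ∈ Z ∧ j ∈ Z) then (1 : ℝ) else 0) =
        ∑ Z ∈ (Finset.univ : Finset (Finset ι)).filter (fun Z => i ∈ Z ∧ j ∈ Z), bern p Z := by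
      rw [Finset.sum_filter]
      refine Finset.sum_congr rfl fun Z _ => ?_
      split_ifs <;> ring
    rw [h4]
    by_cases hij : i = j
    · subst hij
      rw [if_pos rfl]
      have h5 := sum_bern_mem p i
      have h6 : ∑ Z ∈ (Finset.univ : Finset (Finset ι)).filter (fun Z => i ∈ Z ∧ i ∈ Z),
          bern p Z = p i := by
        rw [← h5]
        refine Finset.sum_congr ?_ fun _ _ => rfl
        ext Z
        simp
      rw [h6]
      nlinarith [mul_self_nonneg (p i)]
    · rw [if_neg hij, sum_bern_mem2 p i j hij, zero_add]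
  simp only [h1, Finset.mul_sum]
  rw [Finset.sum_comm]
  have h7 : ∀ i ∈ S, ∑ Z : Finset ι, ∑ j ∈ S,
      bern p Z * (if (i ∈ Z ∧ j ∈ Z) then (1 : ℝ) else 0) ≤ p i + p i * ∑ j ∈ S, p j := by
    intro i hi
    rw [Finset.sum_comm]
    refine (Finset.sum_le_sum fun j _ => h3 i j).trans ?_
    rw [Finset.sum_add_distrib, ← Finset.mul_sum, Finset.sum_ite_eq, if_pos hi]
  refine (Finset.sum_le_sum h7).trans (le_of_eq ?_)
  rw [Finset.sum_add_distrib, ← Finset.sum_mul, sq]

end Gen

variable {V : Type} [Fintype V]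

/-- The private neighbours of `x` relative to `X ∩ Z`. -/
noncomputable def priv (G : SimpleGraph V) (A X Z : Finset V) (x : V) : Finset V :=
  (nb G A x).filter (fun a => ∀ y ∈ X.filter (fun y => y ∈ Z), G.Adj a y → y = x)

/-- The vertices of `X ∩ Z` with heavy private neighbourhoods. -/
noncomputable def heavy (G : SimpleGraph V) (A X : Finset V) (σ : V → ℝ) (Z : Finset V) :
    Finset V :=
  (X.filter (fun y => y ∈ Z)).filter (fun x => 1 / 8 ≤ ∑ a ∈ priv G A X Z x, σ a)

lemma prob_priv (G : SimpleGraph V) (X : Finset V) (p : V → ℝ) (x a : V) :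
    ∑ Z ∈ (Finset.univ : Finset (Finset V)).filter (fun Z => x ∈ Z ∧
        ∀ y ∈ X.filter (fun y => y ∈ Z), G.Adj a y → y = x), bern p Z =
      p x * ∏ y ∈ (nb G X a).erase x, (1 - p y) := by
  have h := sum_bern_filter p {x} ((nb G X a).erase x) (by simp)
  rw [Finset.prod_singleton] at h
  rw [← h]
  refine Finset.sum_congr ?_ fun _ _ => rfl
  ext Z
  simp only [Finset.mem_filter, Finset.mem_univ, true_and, Finset.singleton_subset_iff]
  refine and_congr_right fun hxZ => ?_
  constructor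
  · intro h1
    rw [Finset.disjoint_left]
    intro y hy hyZ
    rw [Finset.mem_erase, mem_nb] at hy
    exact hy.1 (h1 y ⟨hy.2.1, hyZ⟩ hy.2.2)
  · intro h1 y hy hay
    by_contra hne
    exact (Finset.disjoint_left.mp h1) (Finset.mem_erase.mpr ⟨hne, mem_nb.mpr ⟨hy.1, hay⟩⟩) hy.2

omit [Fintype V] in
lemma prod_ge {S : Finset V} {p : V → ℝ} (h0 : ∀ i ∈ S, 0 ≤ p i) (h1 : ∀ i ∈ S, p i ≤ 1) :
    1 - ∑ i ∈ S, p i ≤ ∏ i ∈ S, (1 - p i) := by
  induction S using Finset.induction_on with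
  | empty => simp
  | insert a S ha ih =>
    rw [Finset.sum_insert ha, Finset.prod_insert ha]
    have h0' : ∀ i ∈ S, 0 ≤ p i := fun i hi => h0 i (Finset.mem_insert_of_mem hi)
    have h1' : ∀ i ∈ S, p i ≤ 1 := fun i hi => h1 i (Finset.mem_insert_of_mem hi)
    have h2 := ih h0' h1'
    have h3 : 0 ≤ 1 - p a := by linarith [h1 a (Finset.mem_insert_self _ _)]
    have h4 : 0 ≤ ∑ i ∈ S, p i := Finset.sum_nonneg h0'
    have h5 := mul_le_mul_of_nonneg_left h2 h3
    have h6 : 0 ≤ p a := h0 a (Finset.mem_insert_self _ _)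
    nlinarith [mul_nonneg h6 h4]

lemma prob_heavy (G : SimpleGraph V) (A X : Finset V) (σ τ p : V → ℝ)
    (hσ0 : ∀ v, 0 ≤ σ v) (hτ0 : ∀ x, 0 ≤ τ x)
    (hp : ∀ x ∈ X, p x = τ x / 2) (hp0 : ∀ x, 0 ≤ p x) (hp1 : ∀ x, p x ≤ 1)
    (h1 : ∀ x ∈ X, wnb G A σ x ≤ 1)
    (h2 : ∀ x ∈ X, 0 < τ x → 1 / 2 ≤ wnb G A σ x)
    (h4 : ∀ a ∈ A, 0 < σ a → wnb G X τ a ≤ 1) (x : V) (hx : x ∈ X) :
    p x / 8 ≤ ∑ Z : Finset V, bern p Z * (if x ∈ heavy G A X σ Z then 1 else 0) := by
  have hb0 := bern_nonneg hp0 hp1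
  rcases (hτ0 x).eq_or_lt with ht | ht
  · rw [hp x hx, ← ht]
    have : 0 ≤ ∑ Z : Finset V, bern p Z * (if x ∈ heavy G A X σ Z then (1 : ℝ) else 0) := by
      refine Finset.sum_nonneg fun Z _ => mul_nonneg (hb0 Z) ?_
      split_ifs <;> norm_num
    simpa using this
  · -- upper bound
    have hup : ∀ Z : Finset V, (if x ∈ Z then ∑ a ∈ priv G A X Z x, σ a else 0) ≤
        (if x ∈ heavy G A X σ Z then (1 : ℝ) else 0) + (if x ∈ Z then 1 / 8 else 0) := by
      intro Z
      by_cases hxZ : x ∈ Z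
      · rw [if_pos hxZ, if_pos hxZ]
        by_cases hh : x ∈ heavy G A X σ Z
        · rw [if_pos hh]
          have : ∑ a ∈ priv G A X Z x, σ a ≤ wnb G A σ x :=
            Finset.sum_le_sum_of_subset_of_nonneg (Finset.filter_subset _ _) fun a _ _ => hσ0 a
          linarith [h1 x hx]
        · rw [if_neg hh]
          have : ¬ (1 / 8 ≤ ∑ a ∈ priv G A X Z x, σ a) := by
            intro h
            exact hh (Finset.mem_filter.mpr ⟨Finset.mem_filter.mpr ⟨hx, hxZ⟩, h⟩)
          push Not at this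
          linarith
      · rw [if_neg hxZ, if_neg hxZ]
        have : (0 : ℝ) ≤ (if x ∈ heavy G A X σ Z then (1 : ℝ) else 0) := by
          split_ifs <;> norm_num
        linarith
    have hE1 : ∑ Z : Finset V, bern p Z * (if x ∈ Z then ∑ a ∈ priv G A X Z x, σ a else 0) ≤
        ∑ Z : Finset V, bern p Z * (if x ∈ heavy G A X σ Z then (1 : ℝ) else 0) + p x / 8 := by
      have h5 : ∑ Z : Finset V, bern p Z * (if x ∈ Z then (1 / 8 : ℝ) else 0) = p x / 8 := by
        have h6 := sum_bern_mem p x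
        rw [Finset.sum_filter] at h6
        rw [← h6, Finset.sum_div]
        refine Finset.sum_congr rfl fun Z _ => ?_
        split_ifs <;> ring
      rw [← h5, ← Finset.sum_add_distrib]
      refine Finset.sum_le_sum fun Z _ => ?_
      rw [← mul_add]
      exact mul_le_mul_of_nonneg_left (hup Z) (hb0 Z)
    -- the expectation
    have hE2 : ∑ Z : Finset V, bern p Z * (if x ∈ Z then ∑ a ∈ priv G A X Z x, σ a else 0) =
        ∑ a ∈ nb G A x, σ a * (p x * ∏ y ∈ (nb G X a).erase x, (1 - p y)) := by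
      have h5 : ∀ Z : Finset V, bern p Z * (if x ∈ Z then ∑ a ∈ priv G A X Z x, σ a else 0) =
          ∑ a ∈ nb G A x, σ a * (if (x ∈ Z ∧ ∀ y ∈ X.filter (fun y => y ∈ Z),
            G.Adj a y → y = x) then bern p Z else 0) := by
        intro Z
        by_cases hxZ : x ∈ Z
        · rw [if_pos hxZ, priv, Finset.sum_filter, Finset.mul_sum]
          refine Finset.sum_congr rfl fun a _ => ?_
          by_cases hc : ∀ y ∈ X.filter (fun y => y ∈ Z), G.Adj a y → y = x
          · rw [if_pos hc, if_pos ⟨hxZ, hc⟩, mul_comm]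
          · rw [if_neg hc, if_neg (fun h => hc h.2), mul_zero, mul_zero]
        · rw [if_neg hxZ, mul_zero]
          symm
          refine Finset.sum_eq_zero fun a _ => ?_
          rw [if_neg (fun h => hxZ h.1), mul_zero]
      simp only [h5]
      rw [Finset.sum_comm]
      refine Finset.sum_congr rfl fun a _ => ?_
      rw [← Finset.mul_sum, ← Finset.sum_filter, prob_priv G X p x a]
    have hE3 : p x / 4 ≤ ∑ a ∈ nb G A x, σ a * (p x * ∏ y ∈ (nb G X a).erase x, (1 - p y)) := by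
      have h5 : ∀ a ∈ nb G A x, σ a * (p x / 2) ≤
          σ a * (p x * ∏ y ∈ (nb G X a).erase x, (1 - p y)) := by
        intro a ha
        rcases (hσ0 a).eq_or_lt with hs | hs
        · rw [← hs]
          simp
        · refine mul_le_mul_of_nonneg_left ?_ (hσ0 a)
          have h6 := h4 a (mem_nb.mp ha).1 hs
          have h7 : ∑ y ∈ (nb G X a).erase x, p y ≤ 1 / 2 := by
            calc ∑ y ∈ (nb G X a).erase x, p y ≤ ∑ y ∈ nb G X a, p y :=
                  Finset.sum_le_sum_of_subset_of_nonneg (Finset.erase_subset _ _)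
                    fun y _ _ => hp0 y
              _ = wnb G X τ a / 2 := by
                  rw [wnb, Finset.sum_div]
                  exact Finset.sum_congr rfl fun y hy => hp y (mem_nb.mp hy).1
              _ ≤ 1 / 2 := by linarith
          have h8 := prod_ge (S := (nb G X a).erase x) (fun i _ => hp0 i) (fun i _ => hp1 i)
          have h9 : 1 / 2 ≤ ∏ y ∈ (nb G X a).erase x, (1 - p y) := by linarith
          have := mul_le_mul_of_nonneg_left h9 (hp0 x)
          linarith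
      have h6 := Finset.sum_le_sum h5
      rw [← Finset.sum_mul] at h6
      have h7 : 1 / 2 ≤ ∑ a ∈ nb G A x, σ a := h2 x hx ht
      have h8 := mul_le_mul_of_nonneg_right h7 (by linarith [hp0 x] : (0 : ℝ) ≤ p x / 2)
      linarith
    rw [hE2] at hE1
    linarith

/-- The probability of having a neighbour in the heavy set. -/
lemma prob_served (G : SimpleGraph V) (A X : Finset V) (σ τ p : V → ℝ)
    (hσ0 : ∀ v, 0 ≤ σ v) (hτ0 : ∀ x, 0 ≤ τ x)
    (hp : ∀ x ∈ X, p x = τ x / 2) (hp0 : ∀ x, 0 ≤ p x) (hp1 : ∀ x, p x ≤ 1)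
    (h1 : ∀ x ∈ X, wnb G A σ x ≤ 1)
    (h2 : ∀ x ∈ X, 0 < τ x → 1 / 2 ≤ wnb G A σ x)
    (h4 : ∀ a ∈ A, 0 < σ a → wnb G X τ a ≤ 1) (a : V) (ha : 1 / 2 ≤ wnb G X τ a) :
    1 / 320 ≤ ∑ Z : Finset V, bern p Z *
      (if ∃ x ∈ heavy G A X σ Z, G.Adj a x then 1 else 0) := by
  have hb0 := bern_nonneg hp0 hp1
  set m : ℝ := ∑ x ∈ nb G X a, p x with hm
  have hmv : m = wnb G X τ a / 2 := by
    rw [hm, wnb, Finset.sum_div]
    exact Finset.sum_congr rfl fun y hy => hp y (mem_nb.mp hy).1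
  have hm4 : 1 / 4 ≤ m := by rw [hmv]; linarith
  -- first moment
  have hW1 : m / 8 ≤ ∑ Z : Finset V, bern p Z *
      (((nb G X a).filter (fun x => x ∈ heavy G A X σ Z)).card : ℝ) := by
    have h5 : ∀ Z : Finset V, bern p Z *
        (((nb G X a).filter (fun x => x ∈ heavy G A X σ Z)).card : ℝ) =
        ∑ x ∈ nb G X a, bern p Z * (if x ∈ heavy G A X σ Z then 1 else 0) := by
      intro Z
      rw [← Finset.mul_sum, Finset.card_filter]
      push_cast
      rfl
    simp only [h5]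
    rw [Finset.sum_comm, hm, Finset.sum_div]
    refine Finset.sum_le_sum fun x hx => ?_
    exact prob_heavy G A X σ τ p hσ0 hτ0 hp hp0 hp1 h1 h2 h4 x (mem_nb.mp hx).1
  -- second moment
  have hW2 := sum_bern_sq (p := p) (nb G X a)
  rw [← hm] at hW2
  set t : ℝ := 8 * (1 + m) with ht
  have ht0 : 0 < t := by rw [ht]; linarith
  have hpt : ∀ Z : Finset V,
      2 * t * (((nb G X a).filter (fun x => x ∈ heavy G A X σ Z)).card : ℝ) ≤
        t ^ 2 * (if ∃ x ∈ heavy G A X σ Z, G.Adj a x then 1 else 0) +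
          (((nb G X a).filter (fun x => x ∈ Z)).card : ℝ) ^ 2 := by
    intro Z
    have hle : (((nb G X a).filter (fun x => x ∈ heavy G A X σ Z)).card : ℝ) ≤
        (((nb G X a).filter (fun x => x ∈ Z)).card : ℝ) := by
      have : ((nb G X a).filter (fun x => x ∈ heavy G A X σ Z)).card ≤
          ((nb G X a).filter (fun x => x ∈ Z)).card := by
        refine Finset.card_le_card fun x hx => ?_
        rw [Finset.mem_filter] at hx ⊢
        refine ⟨hx.1, ?_⟩
        have h5 := hx.2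
        rw [heavy, Finset.mem_filter, Finset.mem_filter] at h5
        exact h5.1.2
      exact_mod_cast this
    have h0 : (0 : ℝ) ≤ (((nb G X a).filter (fun x => x ∈ heavy G A X σ Z)).card : ℝ) :=
      Nat.cast_nonneg _
    by_cases he : ∃ x ∈ heavy G A X σ Z, G.Adj a x
    · rw [if_pos he]
      nlinarith [sq_nonneg (t - (((nb G X a).filter (fun x => x ∈ Z)).card : ℝ))]
    · rw [if_neg he]
      have : (nb G X a).filter (fun x => x ∈ heavy G A X σ Z) = ∅ := by
        rw [Finset.filter_eq_empty_iff]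
        intro x hx hx'
        exact he ⟨x, hx', (mem_nb.mp hx).2⟩
      rw [this]
      simp only [Finset.card_empty, Nat.cast_zero, mul_zero, zero_add]
      positivity
  have hsum : 2 * t * (m / 8) ≤ t ^ 2 * ∑ Z : Finset V, bern p Z *
      (if ∃ x ∈ heavy G A X σ Z, G.Adj a x then 1 else 0) + (m + m ^ 2) := by
    calc 2 * t * (m / 8) ≤ 2 * t * ∑ Z : Finset V, bern p Z *
          (((nb G X a).filter (fun x => x ∈ heavy G A X σ Z)).card : ℝ) :=
          mul_le_mul_of_nonneg_left hW1 (by linarith)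
      _ = ∑ Z : Finset V, bern p Z * (2 * t *
          (((nb G X a).filter (fun x => x ∈ heavy G A X σ Z)).card : ℝ)) := by
          rw [Finset.mul_sum]
          exact Finset.sum_congr rfl fun Z _ => by ring
      _ ≤ ∑ Z : Finset V, bern p Z * (t ^ 2 * (if ∃ x ∈ heavy G A X σ Z, G.Adj a x then 1 else 0) +
          (((nb G X a).filter (fun x => x ∈ Z)).card : ℝ) ^ 2) :=
          Finset.sum_le_sum fun Z _ => mul_le_mul_of_nonneg_left (hpt Z) (hb0 Z)
      _ = t ^ 2 * ∑ Z : Finset V, bern p Z *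
            (if ∃ x ∈ heavy G A X σ Z, G.Adj a x then 1 else 0) +
          ∑ Z : Finset V, bern p Z * (((nb G X a).filter (fun x => x ∈ Z)).card : ℝ) ^ 2 := by
          rw [Finset.mul_sum, ← Finset.sum_add_distrib]
          exact Finset.sum_congr rfl fun Z _ => by ring
      _ ≤ _ := by linarith
  set P : ℝ := ∑ Z : Finset V, bern p Z *
      (if ∃ x ∈ heavy G A X σ Z, G.Adj a x then 1 else 0) with hP
  have h6 : m * (1 + m) ≤ 64 * (1 + m) ^ 2 * P := by
    rw [ht] at hsum
    nlinarith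
  have h7 : (0 : ℝ) < 1 + m := by linarith
  have h8 : m ≤ 64 * (1 + m) * P := by
    have : (1 + m) * m ≤ (1 + m) * (64 * (1 + m) * P) := by nlinarith
    exact le_of_mul_le_mul_left this h7
  by_contra hcon
  push Not at hcon
  have h9 : 64 * (1 + m) * P < 64 * (1 + m) * (1 / 320) :=
    mul_lt_mul_of_pos_left hcon (by linarith)
  nlinarith

end Sample

open Sample in
theorem stSample : StSample := by
  intro V _ G A X k μ σ τ hk hμ0 hσ hτ0 h1 h2 h3 h4
  have hσ0 : ∀ v, 0 ≤ σ v := fun v => (hσ v).1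
  set p : V → ℝ := fun x => if x ∈ X then τ x / 2 else 0 with hpdef
  have hp : ∀ x ∈ X, p x = τ x / 2 := fun x hx => by simp [hpdef, hx]
  have hp0 : ∀ x, 0 ≤ p x := by
    intro x
    by_cases hx : x ∈ X
    · rw [hp x hx]
      linarith [hτ0 x]
    · simp [hpdef, hx]
  have hp1 : ∀ x, p x ≤ 1 := by
    intro x
    by_cases hx : x ∈ X
    · rw [hp x hx]
      rcases (hτ0 x).eq_or_lt with h | h
      · rw [← h]
        norm_num
      · linarith [(h2 x hx h).2]
    · simp [hpdef, hx]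
  have hb0 := bern_nonneg hp0 hp1
  set A' : Finset V := A.filter (fun a => σ a < 1 / (8 * k)) with hA'
  have havg : (∑ a ∈ A', μ a) / 320 ≤ ∑ Z : Finset V, bern p Z *
      ∑ a ∈ A', μ a * (if ∃ x ∈ heavy G A X σ Z, G.Adj a x then 1 else 0) := by
    simp only [Finset.mul_sum]
    rw [Finset.sum_comm, Finset.sum_div]
    refine Finset.sum_le_sum fun a ha => ?_
    have h5 := (Finset.mem_filter.mp ha)
    have h6 := prob_served G A X σ τ p hσ0 hτ0 hp hp0 hp1 h1 (fun x hx h => (h2 x hx h).1) h4 a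
      (h3 a h5.1 h5.2)
    have h7 := mul_le_mul_of_nonneg_left h6 (hμ0 a)
    calc μ a / 320 = μ a * (1 / 320) := by ring
      _ ≤ _ := h7
      _ = _ := by
        rw [Finset.mul_sum]
        exact Finset.sum_congr rfl fun Z _ => by ring
  obtain ⟨Z, hZ⟩ := exists_ge_bern hp0 hp1 _ _ havg
  refine ⟨X.filter (fun y => y ∈ Z), heavy G A X σ Z, Finset.filter_subset _ _,
    Finset.filter_subset _ _, ?_, ?_⟩
  · intro x hx
    have h5 : 1 / 8 ≤ ∑ a ∈ priv G A X Z x, σ a := (Finset.mem_filter.mp hx).2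
    have h6 : ∑ a ∈ priv G A X Z x, σ a ≤ (priv G A X Z x).card * (1 / (8 * (k : ℝ))) := by
      rw [← nsmul_eq_mul]
      exact Finset.sum_le_card_nsmul _ _ _ fun a _ => (hσ a).2
    have hk0 : (0 : ℝ) < k := by exact_mod_cast hk
    have h7 : 1 / 8 ≤ ((priv G A X Z x).card : ℝ) * (1 / (8 * (k : ℝ))) := h5.trans h6
    have h8 : (k : ℝ) ≤ (priv G A X Z x).card := by
      have h9 : ((priv G A X Z x).card : ℝ) * (1 / (8 * (k : ℝ))) =
          ((priv G A X Z x).card : ℝ) / (8 * k) := by ring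
      rw [h9, div_le_div_iff₀ (by norm_num) (by linarith)] at h7
      linarith
    exact_mod_cast h8
  · have h5 : ∑ a ∈ A', μ a * (if ∃ x ∈ heavy G A X σ Z, G.Adj a x then 1 else 0) ≤
        ∑ a ∈ A.filter (fun a => ∃ x ∈ heavy G A X σ Z, G.Adj a x), μ a := by
      have h6 : ∀ a ∈ A', μ a * (if ∃ x ∈ heavy G A X σ Z, G.Adj a x then 1 else 0) =
          if ∃ x ∈ heavy G A X σ Z, G.Adj a x then μ a else 0 := by
        intro a _
        split_ifs <;> ring
      rw [Finset.sum_congr rfl h6, ← Finset.sum_filter]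
      refine Finset.sum_le_sum_of_subset_of_nonneg ?_ fun a _ _ => hμ0 a
      exact Finset.filter_subset_filter _ (Finset.filter_subset _ _)
    linarith

end Pool.Agent.Lib.FracGS
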