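import Mathlib

/-!
# Fractional Gyarfas-Sumner in graphs of large odd girth: definitions

Everything takes place in a finite graph `G` with two disjoint finite sets of vertices `A` and `X`;
only the edges between `A` and `X` matter.  For `a` in `A` we write `S_a` for its neighbours in `X`
(this is `nb G X a`), and for `x` in `X` we write `Ω(x)` for its neighbours in `A`
(this is `nb G A x`).
-/

set_option autoImplicit false

namespace Pool.Agent.Lib.FracGS

open Finset Classical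

/-- `v` is joined to `c` by a walk of length at most `R`. -/
def Near {V : Type} (G : SimpleGraph V) (R : ℕ) (c v : V) : Prop :=
  ∃ p : G.Walk c v, p.length ≤ R

/-- Every class of the labelling `g` of `S` lies in a ball of radius `R`. -/
def Radius {V : Type} (G : SimpleGraph V) (R : ℕ) (S : Finset V) (g : V → ℕ) : Prop :=
  ∀ x ∈ S, ∃ c, ∀ y ∈ S, g y = g x → Near G R c y

/-- The neighbours of `v` in `S`. -/
noncomputable def nb {V : Type} (G : SimpleGraph V) (S : Finset V) (v : V) : Finset V :=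
  S.filter (fun u => G.Adj v u)

/-- The `ζ`-weight of the neighbours of `v` in `S`. -/
noncomputable def wnb {V : Type} (G : SimpleGraph V) (S : Finset V) (ζ : V → ℝ) (v : V) : ℝ :=
  ∑ u ∈ nb G S v, ζ u

/-- `ω(x, p)`: the `ζ`-weight of the common neighbours of `x` and `p` in `S`. -/
noncomputable def om {V : Type} (G : SimpleGraph V) (S : Finset V) (ζ : V → ℝ) (x p : V) : ℝ :=
  ∑ u ∈ S.filter (fun u => G.Adj x u ∧ G.Adj p u), ζ u

/-- A scheme `(A', X', g)` of radius `R` in `(A, X)`: every `a ∈ A'` has a neighbour in `X'`, the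
labelling `g` is constant on the neighbours of `a` in `X'`, and the classes of `g` on `X'` lie in
balls of radius `R`. -/
structure Scheme {V : Type} (G : SimpleGraph V) (A X : Finset V) (R : ℕ)
    (A' X' : Finset V) (g : V → ℕ) : Prop where
  subA : A' ⊆ A
  subX : X' ⊆ X
  ex : ∀ a ∈ A', ∃ x ∈ X', G.Adj a x
  const : ∀ a ∈ A', ∀ x ∈ X', ∀ y ∈ X', G.Adj a x → G.Adj a y → g x = g y
  rad : Radius G R X' g

/-- Adjacency in the tree of words: the parent of `t :: w` is `w`. -/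
def TAdj {k : ℕ} (u w : List (Fin k)) : Prop := (∃ t, u = t :: w) ∨ (∃ t, w = t :: u)

/-- `φ` is an induced copy, for the edges between `A` and `X`, of the `k`-ary tree of depth `d`
(words of length at most `d`, the parent of `t :: w` is `w`) with all the leaves in `A`. -/
structure LTree {V : Type} (G : SimpleGraph V) (A X : Finset V) (d k : ℕ)
    (φ : List (Fin k) → V) : Prop where
  memA : ∀ w : List (Fin k), w.length ≤ d → Even (d + w.length) → φ w ∈ A
  memX : ∀ w : List (Fin k), w.length ≤ d → ¬ Even (d + w.length) → φ w ∈ X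
  inj : ∀ u w : List (Fin k), u.length ≤ d → w.length ≤ d → φ u = φ w → u = w
  adj : ∀ u w : List (Fin k), u.length ≤ d → w.length ≤ d → Even (d + u.length) →
    ¬ Even (d + w.length) → (G.Adj (φ u) (φ w) ↔ TAdj u w)

/-- No induced copy of the tree with the leaves in `A`. -/
def NoTree {V : Type} (G : SimpleGraph V) (A X : Finset V) (d k : ℕ) : Prop :=
  ∀ φ : List (Fin k) → V, ¬ LTree G A X d k φ

/-- Schemes serving a proportion `c` of `A` in graphs without the tree with leaves in `A`. -/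
def ThA (d k : ℕ) : Prop :=
  ∃ (c : ℝ) (R : ℕ), 0 < c ∧ ∀ (V : Type) [Fintype V] (G : SimpleGraph V) (A X : Finset V)
    (μ : V → ℝ), (∀ v, 0 ≤ μ v) → Disjoint A X → (∀ a ∈ A, ∃ x ∈ X, G.Adj a x) →
      NoTree G A X d k →
        ∃ (A' X' : Finset V) (g : V → ℕ), Scheme G A X R A' X' g ∧
          c * ∑ a ∈ A, μ a ≤ ∑ a ∈ A', μ a

/-- Schemes serving a proportion `c` of `A` in graphs without the tree with leaves in `X`. -/
def ThX (d k : ℕ) : Prop :=
  ∃ (c : ℝ) (R : ℕ), 0 < c ∧ ∀ (V : Type) [Fintype V] (G : SimpleGraph V) (A X : Finset V)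
    (μ : V → ℝ), (∀ v, 0 ≤ μ v) → Disjoint A X → (∀ a ∈ A, ∃ x ∈ X, G.Adj a x) →
      NoTree G X A d k →
        ∃ (A' X' : Finset V) (g : V → ℕ), Scheme G A X R A' X' g ∧
          c * ∑ a ∈ A, μ a ≤ ∑ a ∈ A', μ a

/-- There are `K` vertices with the property `Pr`, pairwise `δ`-separated: `ω ≤ δ`. -/
def Sep {V : Type} (G : SimpleGraph V) (A : Finset V) (ζ : V → ℝ) (δ : ℝ) (K : ℕ)
    (Pr : V → Prop) : Prop :=
  ∃ T : Finset V, T.card = K ∧ (∀ x ∈ T, Pr x) ∧ ∀ x ∈ T, ∀ y ∈ T, x ≠ y → om G A ζ x y ≤ δ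

/-- `Rich i q F` is the property `R_{2i+1}(q; F)`: `q` has `K` pairwise separated neighbours `x` in
`X` with no neighbour in `F`, and (for `i > 0`) at least half of the weight of the neighbours `q'`
of each of them satisfies `R_{2i-1}(q'; F ∪ {q})`. -/
def Rich {V : Type} (G : SimpleGraph V) (A X : Finset V) (ζ : V → ℝ) (δ : ℝ) (K : ℕ) :
    ℕ → V → Finset V → Prop
  | 0, q, F => Sep G A ζ δ K (fun x => x ∈ X ∧ G.Adj q x ∧ ∀ f ∈ F, ¬ G.Adj f x)
  | i + 1, q, F => Sep G A ζ δ K (fun x => x ∈ X ∧ G.Adj q x ∧ (∀ f ∈ F, ¬ G.Adj f x) ∧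
      wnb G A ζ x ≤ 2 * ∑ q' ∈ (nb G A x).filter (fun q' => Rich G A X ζ δ K i q' (insert q F)),
        ζ q')

/-- The situation in the main part of the proof. -/
structure Ctx {V : Type} (G : SimpleGraph V) (A X Xn Z : Finset V) (μ α ζ : V → ℝ) (δ : ℝ)
    (d k N : ℕ) : Prop where
  disj : Disjoint A X
  μ0 : ∀ v, 0 ≤ μ v
  α0 : ∀ v, 0 ≤ α v
  ζ0 : ∀ v, 0 ≤ ζ v
  mass : ∀ Q ⊆ A, ∑ x ∈ X, α x * wnb G Q ζ x ≤ ∑ a ∈ Q, μ a
  low : ∀ x ∈ X, 1 / 4 ≤ wnb G A ζ x
  δ1 : δ < 1 / 4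
  XnX : Xn ⊆ X
  ZA : Z ⊆ A
  net : ∀ x ∈ Xn, (nb G Z x).card ≤ N
  hit : ∀ x ∈ Xn, ∀ p ∈ X, δ < om G A ζ x p → ∃ z ∈ Z, G.Adj z x ∧ G.Adj z p
  noTree : NoTree G X A d k

/-- A state of the phases. -/
structure State {V : Type} (G : SimpleGraph V) (A X Xn : Finset V) (ζ : V → ℝ) (δ : ℝ)
    (K R i : ℕ) (P : Finset V) (ℓ : V → ℕ) (F : V → Finset V) : Prop where
  sub : P ⊆ Xn
  rad : Radius G R P ℓ
  lab : ∀ x ∈ P, ∀ f ∈ F x, ∀ p ∈ P, G.Adj f p → ℓ p = ℓ x
  bad : ∀ x ∈ P, wnb G A ζ x ≤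
    2 * ∑ q ∈ (nb G A x).filter (fun q => ¬ Rich G A X ζ δ K i q (F x)), ζ q

/-- The weight of `Z` when the events `i ∈ Z` are independent with probabilities `p i`. -/
noncomputable def bern {ι : Type} [Fintype ι] (p : ι → ℝ) (Z : Finset ι) : ℝ :=
  ∏ i, if i ∈ Z then p i else 1 - p i

/-- There is no closed walk of odd length at most `2 L + 1`. -/
def NoOdd {V : Type} (G : SimpleGraph V) (L : ℕ) : Prop :=
  ∀ (v : V) (p : G.Walk v v), p.length ≤ 2 * L + 1 → Even p.length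

/-- The tree on `0, ..., n-1` in which the parent of `j ≥ 1` is `par j`. -/
def pat (par : ℕ → ℕ) (n : ℕ) : SimpleGraph (Fin n) where
  Adj i j := (i.1 < j.1 ∧ par j.1 = i.1) ∨ (j.1 < i.1 ∧ par i.1 = j.1)
  symm := ⟨by
    intro i j h
    rcases h with h | h
    · exact Or.inr h
    · exact Or.inl h⟩
  loopless := ⟨by
    intro i h
    rcases h with h | h
    · exact absurd h.1 (lt_irrefl _)
    · exact absurd h.1 (lt_irrefl _)⟩

/-- `v` is an induced copy of the tree `pat par m` in `U`, rainbow for the labellings `f i`,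
`i < s`. -/
structure RCopy {V : Type} (G : SimpleGraph V) (par : ℕ → ℕ) (m : ℕ) (U : Finset V) (s : ℕ)
    (f : ℕ → V → ℕ) (v : ℕ → V) : Prop where
  mem : ∀ i < m, v i ∈ U
  inj : ∀ i < m, ∀ j < m, v i = v j → i = j
  adj : ∀ j < m, ∀ i < j, (G.Adj (v i) (v j) ↔ par j = i)
  rain : ∀ t < s, ∀ i < m, ∀ j < m, f t (v i) = f t (v j) → i = j

end Pool.Agent.Lib.FracGS
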