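import Mathlib

/-!
# Fractional colourings and odd cycles
-/

set_option autoImplicit false

namespace Pool.Agent.Lib.FracGS

open Finset Classical

/-- Duality: if for all weights there is a stable set with a proportion `1 / C` of the weight, then
there is a fractional colouring of total weight `C`. -/
theorem exists_fractional {V : Type} [Fintype V] (G : SimpleGraph V) (C : ℝ) (hC : 0 < C)
    (h : ∀ μ : V → ℝ, (∀ v, 0 ≤ μ v) →
      ∃ T : Finset V, (∀ u ∈ T, ∀ v ∈ T, ¬ G.Adj u v) ∧ ∑ v, μ v ≤ C * ∑ v ∈ T, μ v) :
    ∃ c : Finset V → ℝ, (∀ S, 0 ≤ c S) ∧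
      (∀ S, c S ≠ 0 → ∀ u ∈ S, ∀ v ∈ S, ¬ G.Adj u v) ∧
      (∀ v, 1 ≤ ∑ S ∈ (Finset.univ : Finset (Finset V)).filter (fun S => v ∈ S), c S) ∧
      ∑ S, c S = C := by
  set L : (Finset V → ℝ) →ₗ[ℝ] (V → ℝ) :=
    { toFun := fun c v => ∑ S : Finset V, c S * (if v ∈ S then 1 else 0)
      map_add' := by
        intro c c'
        funext v
        simp only [Pi.add_apply, add_mul, Finset.sum_add_distrib]
      map_smul' := by
        intro a c
        funext v
        simp only [Pi.smul_apply, smul_eq_mul, RingHom.id_apply, Finset.mul_sum, mul_assoc] }
    with hL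
  have hLapp : ∀ (c : Finset V → ℝ) (v : V),
      L c v = ∑ S : Finset V, c S * (if v ∈ S then 1 else 0) := fun c v => rfl
  set K0 : Set (Finset V → ℝ) := stdSimplex ℝ (Finset V) ∩
    {c | ∀ S, (¬ ∀ u ∈ S, ∀ v ∈ S, ¬ G.Adj u v) → c S = 0} with hK0
  have hK0c : IsCompact K0 := by
    refine (isCompact_stdSimplex ℝ (Finset V)).inter_right ?_
    simp only [Set.ofPred_forall]
    exact isClosed_iInter fun S => isClosed_iInter fun _ =>
      isClosed_eq (continuous_apply S) continuous_const
  have hK0conv : Convex ℝ K0 := by
    refine (convex_stdSimplex ℝ (Finset V)).inter ?_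
    intro x hx y hy a b _ _ _ S hS
    show a * x S + b * y S = 0
    rw [hx S hS, hy S hS, mul_zero, mul_zero, add_zero]
  set P : Set (V → ℝ) := L '' K0 with hP
  set Q : Set (V → ℝ) := {y | ∀ v, 1 / C ≤ y v} with hQ
  have hPc : IsCompact P := hK0c.image (LinearMap.continuous_of_finiteDimensional L)
  have hPconv : Convex ℝ P := hK0conv.linear_image L
  have hQclosed : IsClosed Q := by
    rw [hQ]
    simp only [Set.ofPred_forall]
    exact isClosed_iInter fun v => isClosed_le continuous_const (continuous_apply v)
  have hQconv : Convex ℝ Q := by
    intro x hx y hy a b ha hb hab v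
    have h1 := mul_le_mul_of_nonneg_left (hx v) ha
    have h2 := mul_le_mul_of_nonneg_left (hy v) hb
    have h3 : a * (1 / C) + b * (1 / C) = 1 / C := by rw [← add_mul, hab, one_mul]
    show 1 / C ≤ a * x v + b * y v
    linarith
  by_cases hdisj : Disjoint P Q
  · exfalso
    obtain ⟨f, u, v, hf1, huv, hf2⟩ :=
      geometric_hahn_banach_compact_closed hPconv hPc hQconv hQclosed hdisj
    -- the weights
    set w : V → ℝ := fun x => f (Pi.single x 1) with hw
    have hfw : ∀ y : V → ℝ, f y = ∑ x, y x * w x := by
      intro y
      have h1 : y = ∑ x, y x • (Pi.single x (1 : ℝ) : V → ℝ) := by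
        funext z
        simp [Finset.sum_apply, Pi.single_apply]
      conv_lhs => rw [h1]
      rw [map_sum]
      refine Finset.sum_congr rfl fun x _ => ?_
      rw [map_smul, smul_eq_mul]
    have hwnn : ∀ x, 0 ≤ w x := by
      intro x
      by_contra hneg
      push Not at hneg
      -- move far in the direction `x`
      have h1 : ∀ t : ℝ, 0 ≤ t → v < (∑ z, 1 / C * w z) + t * w x := by
        intro t ht
        have h2 : (fun z => 1 / C + (if z = x then t else 0)) ∈ Q := by
          intro z
          show 1 / C ≤ 1 / C + (if z = x then t else 0)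
          split_ifs <;> linarith
        have h3 := hf2 _ h2
        rw [hfw] at h3
        simp only [add_mul, Finset.sum_add_distrib, ite_mul, zero_mul, Finset.sum_ite_eq',
          Finset.mem_univ, if_true] at h3
        exact h3
      have h4 := h1 (((∑ z, 1 / C * w z) - v) / (-w x)) (by
        refine div_nonneg ?_ (by linarith)
        have := h1 0 le_rfl
        linarith)
      have h5 : ((∑ z, 1 / C * w z) - v) / (-w x) * w x = -((∑ z, 1 / C * w z) - v) := by
        rw [div_neg, neg_mul, div_mul_cancel₀ _ hneg.ne]
      rw [h5] at h4
      linarith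
    obtain ⟨T, hT1, hT2⟩ := h w hwnn
    have h1 : (fun x => if x ∈ T then (1 : ℝ) else 0) ∈ P := by
      refine ⟨Pi.single T 1, ⟨single_mem_stdSimplex ℝ _, ?_⟩, ?_⟩
      · intro S hS
        rw [Pi.single_eq_of_ne]
        rintro rfl
        exact hS hT1
      · funext x
        rw [hLapp, Finset.sum_eq_single T]
        · simp
        · intro S _ hS
          rw [Pi.single_eq_of_ne hS, zero_mul]
        · intro hc
          exact absurd (Finset.mem_univ _) hc
    have h2 := hf1 _ h1
    have h3 : (fun _ : V => 1 / C) ∈ Q := fun _ => le_refl _
    have h4 := hf2 _ h3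
    rw [hfw] at h2 h4
    simp only [ite_mul, one_mul, zero_mul] at h2
    rw [Finset.sum_ite_mem, Finset.univ_inter] at h2
    rw [← Finset.mul_sum] at h4
    have h5 : 1 / C * ∑ x, w x ≤ ∑ x ∈ T, w x := by
      rw [div_mul_eq_mul_div, one_mul, div_le_iff₀ hC, mul_comm]
      exact hT2
    linarith
  · rw [Set.not_disjoint_iff] at hdisj
    obtain ⟨y, ⟨c, hc, rfl⟩, hy⟩ := hdisj
    refine ⟨fun S => C * c S, fun S => mul_nonneg hC.le (hc.1.1 S), ?_, ?_, ?_⟩
    · intro S hS
      by_contra hcon
      exact hS (by show C * c S = 0; rw [hc.2 S hcon, mul_zero])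
    · intro v
      have h1 := hy v
      rw [hLapp] at h1
      rw [← Finset.mul_sum, Finset.sum_filter]
      simp only [mul_ite, mul_one, mul_zero] at h1
      rw [div_le_iff₀ hC] at h1
      linarith
    · rw [← Finset.mul_sum, hc.1.2, mul_one]

/-- A closed walk of odd length contains an odd cycle. -/
theorem exists_odd_cycle {V : Type} (G : SimpleGraph V) : ∀ (n : ℕ) (v : V) (p : G.Walk v v),
    p.length = n → Odd n → ∃ (u : V) (c : G.Walk u u), c.IsCycle ∧ Odd c.length ∧ c.length ≤ n := by
  intro n
  induction n using Nat.strong_induction_on with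
  | _ n ih =>
    intro v p hp hodd
    cases p with
    | nil =>
      simp only [SimpleGraph.Walk.length_nil] at hp
      subst hp
      exact absurd hodd (by decide)
    | @cons _ w _ h q =>
      rw [SimpleGraph.Walk.length_cons] at hp
      by_cases hq : q.IsPath
      · by_cases he : s(v, w) ∈ q.edges
        · exfalso
          -- `q` is the edge `w v`
          have h1 : q.length = 1 := by
            cases q with
            | nil => exact absurd rfl h.ne
            | @cons _ x _ h' r =>
              rw [SimpleGraph.Walk.cons_isPath_iff] at hq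
              rw [SimpleGraph.Walk.edges_cons, List.mem_cons] at he
              rcases he with he | he
              · have hx : x = v := by
                  rcases Sym2.eq_iff.mp he with ⟨h2, h3⟩ | ⟨h2, h3⟩
                  · exact absurd h2 h.ne
                  · exact h2.symm
                subst hx
                have hr := SimpleGraph.Walk.isPath_iff_nil.mp hq.1
                rw [SimpleGraph.Walk.length_cons, SimpleGraph.Walk.nil_iff_length_eq.mp hr]
              · exact absurd (SimpleGraph.Walk.snd_mem_support_of_mem_edges r he) hq.2
          rw [h1] at hp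
          rw [← hp] at hodd
          exact absurd hodd (by decide)
        · refine ⟨v, SimpleGraph.Walk.cons h q, ?_, ?_, ?_⟩
          · rw [SimpleGraph.Walk.cons_isCycle_iff]
            exact ⟨hq, he⟩
          · rw [SimpleGraph.Walk.length_cons, hp]
            exact hodd
          · rw [SimpleGraph.Walk.length_cons, hp]
      · -- a repeated vertex
        have hdup : ¬ q.support.Nodup := fun h2 => hq (SimpleGraph.Walk.IsPath.mk' h2)
        obtain ⟨u, hu, q1, hq1⟩ : ∃ (u : V) (hu : u ∈ q.support) (c : G.Walk u u),
            0 < c.length ∧ ∃ (a : G.Walk w u) (b : G.Walk u v),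
              a.length + c.length + b.length = q.length := by
          obtain ⟨u, hu⟩ := List.exists_duplicate_iff_not_nodup.mpr hdup
          have hmem : u ∈ q.support := hu.mem
          have hcount : 2 ≤ q.support.count u := List.duplicate_iff_two_le_count.mp hu
          have hspec := q.take_spec hmem
          have h3 : (q.takeUntil u hmem).support.count u = 1 :=
            SimpleGraph.Walk.count_support_takeUntil_eq_one q hmem
          have h4 : q.support = (q.takeUntil u hmem).support ++ (q.dropUntil u hmem).support.tail := by
            conv_lhs => rw [← hspec]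
            rw [SimpleGraph.Walk.support_append]
          have h5 : u ∈ (q.dropUntil u hmem).support.tail := by
            rw [h4, List.count_append, h3] at hcount
            exact List.one_le_count_iff.mp (by omega)
          have hlen : q.length = (q.takeUntil u hmem).length + (q.dropUntil u hmem).length := by
            conv_lhs => rw [← hspec]
            rw [SimpleGraph.Walk.length_append]
          revert h5 hlen
          generalize q.dropUntil u hmem = r
          intro h5 hlen
          cases r with
          | nil => simp at h5
          | @cons _ x _ h' r =>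
            have h6 : u ∈ r.support := by simpa using h5
            refine ⟨u, hmem, SimpleGraph.Walk.cons h' (r.takeUntil u h6), by simp,
              q.takeUntil u hmem, r.dropUntil u h6, ?_⟩
            have h7 : r.length = (r.takeUntil u h6).length + (r.dropUntil u h6).length := by
              conv_lhs => rw [← r.take_spec h6]
              rw [SimpleGraph.Walk.length_append]
            rw [hlen, SimpleGraph.Walk.length_cons, SimpleGraph.Walk.length_cons]
            omega
        obtain ⟨hc0, a, b, hab⟩ := hq1
        rcases Nat.even_or_odd q1.length with hev | hod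
        · have h8 := ih ((SimpleGraph.Walk.cons h (a.append b)).length) (by
            rw [SimpleGraph.Walk.length_cons, SimpleGraph.Walk.length_append]
            omega) v (SimpleGraph.Walk.cons h (a.append b)) rfl (by
            rw [SimpleGraph.Walk.length_cons, SimpleGraph.Walk.length_append]
            rw [Nat.odd_iff] at hodd ⊢
            rw [Nat.even_iff] at hev
            omega)
          obtain ⟨x, c, h9, h10, h11⟩ := h8
          refine ⟨x, c, h9, h10, h11.trans ?_⟩
          rw [SimpleGraph.Walk.length_cons, SimpleGraph.Walk.length_append]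
          omega
        · obtain ⟨x, c, h9, h10, h11⟩ := ih q1.length (by omega) u q1 rfl hod
          exact ⟨x, c, h9, h10, h11.trans (by omega)⟩

end Pool.Agent.Lib.FracGS
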