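import Pool.Agent.Lib.FracGS.Base
import Pool.Agent.Lib.FracGS.Spec
import Pool.Agent.Lib.MP_763321_co.Base
import Pool.Agent.Lib.MP_cff830_lc.Defs

/-!
# Forests: heavy stable sets and rounding of the odd walk linear programme
-/

set_option autoImplicit false
set_option linter.unusedSectionVars false

namespace Pool.Agent.Lib.FracGS

open Finset Classical

open Pool.Agent.Lib.MP_cff830_lc (IsVertexCover)

/-- Heavy stable sets for forests. -/
theorem heavy_forest (h : StHeavy) (n : ℕ) (F : SimpleGraph (Fin n)) (hF : F.IsAcyclic) :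
    ∃ (L : ℕ) (C : ℝ), 1 ≤ C ∧ ∀ (V : Type) [Fintype V] (G : SimpleGraph V), NoOdd G L →
      IsEmpty (F ↪g G) → ∀ μ : V → ℝ, (∀ v, 0 ≤ μ v) →
        ∃ T : Finset V, (∀ u ∈ T, ∀ v ∈ T, ¬ G.Adj u v) ∧ ∑ v, μ v ≤ C * ∑ v ∈ T, μ v := by
  obtain ⟨m, par, hm, hpar, ⟨φ⟩⟩ :=
    Pool.Agent.Lib.MP_763321_co.exists_pat n F hF (Fintype.card_fin n)
  obtain ⟨L, C, hC, hh⟩ := h par m hm hpar
  refine ⟨L, max C 1, le_max_right _ _, ?_⟩
  intro V _ G hodd hG μ hμ
  obtain ⟨T, hT1, hT2⟩ := hh V G hodd ⟨fun e => hG.false (φ.trans (e : _ ↪g G))⟩ μ hμ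
  exact ⟨T, hT1, hT2.trans (mul_le_mul_of_nonneg_right (le_max_left _ _)
    (Finset.sum_nonneg fun v _ => hμ v))⟩

theorem walk_lower {V : Type} (G : SimpleGraph V) (x : V → ℝ)
    (hE : ∀ u v, G.Adj u v → 1 ≤ x u + x v) {u v : V} (p : G.Walk u v) :
    (p.length : ℝ) + x v ≤ 2 * (p.support.tail.map x).sum + x u := by
  induction p with
  | nil => simp
  | @cons u w v h p ih =>
    have h1 : (SimpleGraph.Walk.cons h p).support.tail = p.support := by simp
    have h2 : p.support = w :: p.support.tail := (SimpleGraph.Walk.cons_tail_support p).symm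
    rw [h1, h2, List.map_cons, List.sum_cons, SimpleGraph.Walk.length_cons]
    have h3 := hE u w h
    push_cast
    linarith

theorem walk_upper {V : Type} (G : SimpleGraph V) (x : V → ℝ) (a : ℝ) (hx : ∀ v, x v ≤ a)
    {u v : V} (p : G.Walk u v) : (p.support.tail.map x).sum ≤ p.length * a := by
  induction p with
  | nil => simp
  | @cons u w v h p ih =>
    have h1 : (SimpleGraph.Walk.cons h p).support.tail = p.support := by simp
    have h2 : p.support = w :: p.support.tail := (SimpleGraph.Walk.cons_tail_support p).symm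
    rw [h1, h2, List.map_cons, List.sum_cons, SimpleGraph.Walk.length_cons]
    have h3 := hx w
    push_cast
    linarith

/-- Rounding a feasible point of the odd walk linear programme. -/
theorem rounding (hH : StHeavy) (n : ℕ) (F : SimpleGraph (Fin n)) (hF : F.IsAcyclic) :
    ∃ (L : ℕ) (ε : ℝ), 0 < ε ∧ ε ≤ 1 ∧
    ∀ (V : Type) [Fintype V] (G : SimpleGraph V), IsEmpty (F ↪g G) →
      ∀ w x : V → ℝ, (∀ v, 0 ≤ w v) → (∀ v, 0 ≤ x v) →
        (∀ u v, G.Adj u v → 1 ≤ x u + x v) →
        (∀ (v : V) (p : G.Walk v v), Odd p.length → p.length ≤ 2 * L + 1 →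
          ((p.length : ℝ) + 1) / 2 ≤ (p.support.tail.map x).sum) →
        ∃ C : Finset V, IsVertexCover G C ∧ ∑ v ∈ C, w v ≤ (2 - ε) * ∑ v, w v * x v := by
  obtain ⟨L, K, hK', hheavy⟩ := heavy_forest hH n F hF
  set δ : ℝ := 1 / (8 * K * (2 * L + 1)) with hδ
  have hL0 : (0 : ℝ) ≤ L := Nat.cast_nonneg L
  have hδ0 : 0 < δ := by positivity
  have hδ1 : δ * (8 * K * (2 * L + 1)) = 1 := by
    rw [hδ]; field_simp
  have hδ2 : δ * (2 * L + 1) ≤ 1 / 8 := by
    have : δ * (2 * L + 1) * K = 1 / 8 := by linarith [hδ1]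
    have h0 : 0 ≤ δ * (2 * L + 1) := by positivity
    nlinarith
  have hδ3 : δ * K ≤ 1 / 8 := by
    have : δ * K * (2 * L + 1) = 1 / 8 := by linarith [hδ1]
    have h0 : 0 ≤ δ * K := by positivity
    nlinarith
  have hδ4 : δ ≤ 1 / 8 := by nlinarith
  refine ⟨L, δ, hδ0, by linarith, ?_⟩
  intro V _ G hG w x hw hx hE hO
  -- the middle part
  let B : Set V := {v | 1 / 2 - δ ≤ x v ∧ x v ≤ 1 / 2 + δ}
  let H : SimpleGraph B := G.induce B
  have hH : IsEmpty (F ↪g H) :=
    ⟨fun e => hG.elim (e.trans (SimpleGraph.Embedding.induce B))⟩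
  have hodd : NoOdd H L := by
    intro v p hp
    by_contra hne
    rw [Nat.not_even_iff_odd] at hne
    let φ : H →g G := (SimpleGraph.Embedding.induce B).toHom
    have h1 := hO (φ v) (p.map φ) (by rw [SimpleGraph.Walk.length_map]; exact hne)
      (by rw [SimpleGraph.Walk.length_map]; exact hp)
    rw [SimpleGraph.Walk.length_map, SimpleGraph.Walk.support_map, ← List.map_tail,
      List.map_map] at h1
    have h2 : (p.support.tail.map (x ∘ φ)).sum ≤ p.length * (1 / 2 + δ) :=
      walk_upper H (x ∘ φ) (1 / 2 + δ) (fun b => b.2.2) p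
    have h3 : ((p.length : ℝ) + 1) / 2 ≤ p.length * (1 / 2 + δ) := h1.trans h2
    have h4 : (p.length : ℝ) ≤ 2 * L + 1 := by exact_mod_cast hp
    have h5 : (p.length : ℝ) * δ ≤ (2 * L + 1) * δ := by nlinarith
    nlinarith
  obtain ⟨T, hT1, hT2⟩ := hheavy B H hodd hH (fun v => w v.1) (fun v => hw v.1)
  -- the cover
  let T' : Finset V := T.map (Function.Embedding.subtype _)
  have hT'B : ∀ v ∈ T', v ∈ B := by
    intro v hv
    obtain ⟨b, _, rfl⟩ := Finset.mem_map.mp hv
    exact b.2
  have hT's : ∀ u ∈ T', ∀ v ∈ T', ¬ G.Adj u v := by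
    intro u hu v hv huv
    obtain ⟨a, ha, rfl⟩ := Finset.mem_map.mp hu
    obtain ⟨b, hb, rfl⟩ := Finset.mem_map.mp hv
    exact hT1 a ha b hb huv
  let D : Finset V := Finset.univ.filter fun v => 1 / 2 - δ ≤ x v ∧ v ∉ T'
  refine ⟨D, ?_, ?_⟩
  · intro u v huv
    have h1 := hE u v huv
    by_contra hcon
    push Not at hcon
    obtain ⟨hu, hv⟩ := hcon
    have hu' : x u < 1 / 2 - δ ∨ u ∈ T' := by
      by_contra h
      push Not at h
      exact hu (Finset.mem_filter.mpr ⟨Finset.mem_univ _, h.1, h.2⟩)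
    have hv' : x v < 1 / 2 - δ ∨ v ∈ T' := by
      by_contra h
      push Not at h
      exact hv (Finset.mem_filter.mpr ⟨Finset.mem_univ _, h.1, h.2⟩)
    rcases hu' with hu' | hu' <;> rcases hv' with hv' | hv'
    · linarith
    · have := (hT'B v hv').2
      linarith
    · have := (hT'B u hu').2
      linarith
    · exact hT's u hu' v hv' huv
  · -- weights
    have hT3 : ∑ v ∈ T, w v.1 = ∑ v ∈ T', w v := by
      rw [Finset.sum_map]; rfl
    have hB : ∑ b : B, w b.1 = ∑ v ∈ Finset.univ.filter (fun v => v ∈ B), w v := by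
      rw [← Finset.sum_subtype_eq_sum_filter]
      simp
    rw [hT3, hB] at hT2
    set wB : ℝ := ∑ v ∈ Finset.univ.filter (fun v => v ∈ B), w v with hwB
    set wT : ℝ := ∑ v ∈ T', w v with hwT
    set wC : ℝ := ∑ v ∈ Finset.univ.filter (fun v => 1 / 2 + δ < x v), w v with hwC
    have hwB0 : 0 ≤ wB := Finset.sum_nonneg fun v _ => hw v
    have hwC0 : 0 ≤ wC := Finset.sum_nonneg fun v _ => hw v
    -- the weight of the cover
    have hdis2 : Disjoint (Finset.univ.filter (fun v => v ∈ B))
        (Finset.univ.filter (fun v => 1 / 2 + δ < x v)) := by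
      rw [Finset.disjoint_left]
      intro v hv hv'
      have h1 := ((Finset.mem_filter.mp hv).2).2
      have h2 := (Finset.mem_filter.mp hv').2
      linarith
    have e1 : ∑ v ∈ D, w v + wT = wB + wC := by
      have hdis : Disjoint D T' := by
        rw [Finset.disjoint_left]
        intro v hv
        exact (Finset.mem_filter.mp hv).2.2
      rw [hwT, hwB, hwC, ← Finset.sum_union hdis, ← Finset.sum_union hdis2]
      refine Finset.sum_congr ?_ fun _ _ => rfl
      ext v
      simp only [Finset.mem_union, Finset.mem_filter, Finset.mem_univ, true_and, D]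
      constructor
      · rintro (⟨h1, h2⟩ | h)
        · by_cases h3 : x v ≤ 1 / 2 + δ
          · exact Or.inl ⟨h1, h3⟩
          · exact Or.inr (not_le.mp h3)
        · exact Or.inl (hT'B v h)
      · rintro (h | h)
        · by_cases h3 : v ∈ T'
          · exact Or.inr h3
          · exact Or.inl ⟨h.1, h3⟩
        · by_cases h3 : v ∈ T'
          · exact Or.inr h3
          · exact Or.inl ⟨by linarith, h3⟩
    have e2 : (1 / 2 - δ) * wB + (1 / 2 + δ) * wC ≤ ∑ v, w v * x v := by
      calc (1 / 2 - δ) * wB + (1 / 2 + δ) * wC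
          ≤ ∑ v ∈ Finset.univ.filter (fun v => v ∈ B), w v * x v +
            ∑ v ∈ Finset.univ.filter (fun v => 1 / 2 + δ < x v), w v * x v := by
            rw [hwB, hwC, Finset.mul_sum, Finset.mul_sum]
            refine add_le_add (Finset.sum_le_sum fun v hv => ?_)
              (Finset.sum_le_sum fun v hv => ?_)
            · have h1 := ((Finset.mem_filter.mp hv).2).1
              nlinarith [hw v]
            · have h1 := (Finset.mem_filter.mp hv).2
              nlinarith [hw v]
        _ = ∑ v ∈ Finset.univ.filter (fun v => v ∈ B) ∪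
              Finset.univ.filter (fun v => 1 / 2 + δ < x v), w v * x v :=
            (Finset.sum_union hdis2).symm
        _ ≤ ∑ v, w v * x v :=
            Finset.sum_le_sum_of_subset_of_nonneg (Finset.subset_univ _)
              fun v _ _ => mul_nonneg (hw v) (hx v)
    have e3 : ∑ v ∈ D, w v = wB + wC - wT := by linarith
    rw [e3]
    have h2δ : 0 < 2 - δ := by linarith
    have e4 : (2 - δ) * ((1 / 2 - δ) * wB + (1 / 2 + δ) * wC) ≤ (2 - δ) * ∑ v, w v * x v :=
      mul_le_mul_of_nonneg_left e2 h2δ.le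
    refine le_trans ?_ e4
    -- `wB ≤ K wT`
    have e5 : δ * wB ≤ 1 / 8 * wT := by
      have : δ * wB ≤ δ * K * wT := by
        have := mul_le_mul_of_nonneg_left hT2 hδ0.le
        linarith
      have hwT0 : 0 ≤ wT := Finset.sum_nonneg fun v _ => hw v
      nlinarith
    nlinarith [mul_nonneg hδ0.le hwC0, mul_nonneg (mul_nonneg hδ0.le hδ0.le) hwC0,
      mul_nonneg (mul_nonneg hδ0.le hδ0.le) hwB0, mul_nonneg hδ0.le hwB0]

end Pool.Agent.Lib.FracGS
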