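import Pool.Agent.Lib.FracGS.Base
import Pool.Agent.Lib.FracGS.Spec

/-!
# FG-9. The epsilon-net theorem for Bernoulli samples
-/

set_option autoImplicit false

namespace Pool.Agent.Lib.FracGS

open Finset Classical

namespace NetAux

variable {ι : Type} [Fintype ι]

/-! ### Chebyshev -/

lemma sum_mem (p : ι → ℝ) (i : ι) :
    ∑ Z : Finset ι, bern p Z * (if i ∈ Z then 1 else 0) = p i := by
  rw [← sum_bern_mem p i, Finset.sum_filter]
  refine Finset.sum_congr rfl fun Z _ => ?_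
  split_ifs <;> simp

lemma sum_mem2 (p : ι → ℝ) (i j : ι) (h : i ≠ j) :
    ∑ Z : Finset ι, bern p Z * ((if i ∈ Z then 1 else 0) * (if j ∈ Z then 1 else 0)) =
      p i * p j := by
  rw [← sum_bern_mem2 p i j h, Finset.sum_filter]
  refine Finset.sum_congr rfl fun Z _ => ?_
  by_cases h1 : i ∈ Z <;> by_cases h2 : j ∈ Z <;> simp [h1, h2]

lemma first {p : ι → ℝ} (S : Finset ι) :
    ∑ Z : Finset ι, bern p Z * ∑ i ∈ S, (if i ∈ Z then (1 : ℝ) else 0) = ∑ i ∈ S, p i := by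
  simp only [Finset.mul_sum]
  rw [Finset.sum_comm]
  exact Finset.sum_congr rfl fun i _ => sum_mem p i

lemma second {p : ι → ℝ} (h0 : ∀ i, 0 ≤ p i) (S : Finset ι) :
    ∑ Z : Finset ι, bern p Z * (∑ i ∈ S, (if i ∈ Z then (1 : ℝ) else 0)) ^ 2 ≤
      ∑ i ∈ S, p i + (∑ i ∈ S, p i) ^ 2 := by
  have h1 : ∀ Z : Finset ι, bern p Z * (∑ i ∈ S, (if i ∈ Z then (1 : ℝ) else 0)) ^ 2 =
      ∑ i ∈ S, ∑ j ∈ S, bern p Z * ((if i ∈ Z then 1 else 0) * (if j ∈ Z then 1 else 0)) := by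
    intro Z
    rw [sq, Finset.sum_mul_sum, Finset.mul_sum]
    exact Finset.sum_congr rfl fun i _ => Finset.mul_sum _ _ _
  simp only [h1]
  rw [Finset.sum_comm]
  have h2 : ∀ i ∈ S, ∑ Z : Finset ι, ∑ j ∈ S,
      bern p Z * ((if i ∈ Z then (1 : ℝ) else 0) * (if j ∈ Z then 1 else 0)) ≤
      p i + ∑ j ∈ S, p i * p j := by
    intro i hi
    rw [Finset.sum_comm, ← Finset.add_sum_erase _ _ hi]
    have h3 : ∑ Z : Finset ι, bern p Z *
        ((if i ∈ Z then (1 : ℝ) else 0) * (if i ∈ Z then 1 else 0)) = p i := by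
      rw [← sum_mem p i]
      refine Finset.sum_congr rfl fun Z _ => ?_
      split_ifs <;> simp
    rw [h3]
    have h4 : ∑ j ∈ S.erase i, ∑ Z : Finset ι, bern p Z *
        ((if i ∈ Z then (1 : ℝ) else 0) * (if j ∈ Z then 1 else 0)) =
        ∑ j ∈ S.erase i, p i * p j :=
      Finset.sum_congr rfl fun j hj => sum_mem2 p i j (Finset.ne_of_mem_erase hj).symm
    rw [h4]
    exact add_le_add le_rfl (Finset.sum_le_sum_of_subset_of_nonneg (Finset.erase_subset _ _)
      fun j _ _ => mul_nonneg (h0 i) (h0 j))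
  refine (Finset.sum_le_sum h2).trans (le_of_eq ?_)
  rw [Finset.sum_add_distrib, sq, Finset.sum_mul_sum]

lemma cheb {p : ι → ℝ} (h0 : ∀ i, 0 ≤ p i) (S : Finset ι) :
    ∑ Z : Finset ι, bern p Z * (∑ i ∈ S, (if i ∈ Z then (1 : ℝ) else 0) - ∑ i ∈ S, p i) ^ 2 ≤
      ∑ i ∈ S, p i := by
  set ρ : ℝ := ∑ i ∈ S, p i with hρ
  have h1 : ∀ Z : Finset ι, bern p Z * (∑ i ∈ S, (if i ∈ Z then (1 : ℝ) else 0) - ρ) ^ 2 =
      bern p Z * (∑ i ∈ S, (if i ∈ Z then (1 : ℝ) else 0)) ^ 2 -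
        2 * ρ * (bern p Z * ∑ i ∈ S, (if i ∈ Z then (1 : ℝ) else 0)) + ρ ^ 2 * bern p Z := by
    intro Z
    ring
  simp only [h1]
  rw [Finset.sum_add_distrib, Finset.sum_sub_distrib, ← Finset.mul_sum, ← Finset.mul_sum,
    sum_bern, first]
  have := second h0 S
  rw [← hρ] at this ⊢
  nlinarith

lemma card_eq (S Z : Finset ι) : ((S ∩ Z).card : ℝ) = ∑ i ∈ S, (if i ∈ Z then (1 : ℝ) else 0) := by
  rw [← Finset.filter_mem_eq_inter, Finset.card_filter]
  push_cast
  rfl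

/-- A set of expected size more than `2 m ≥ 8` has `m` sampled elements with probability `1/2`. -/
lemma half {p : ι → ℝ} (h0 : ∀ i, 0 ≤ p i) (h1 : ∀ i, p i ≤ 1) {S : Finset ι} {m : ℕ} (hm : 4 ≤ m)
    (hS : 2 * (m : ℝ) < ∑ i ∈ S, p i) :
    1 / 2 ≤ ∑ Z ∈ (univ : Finset (Finset ι)).filter (fun Z => m ≤ (S ∩ Z).card), bern p Z := by
  set ρ : ℝ := ∑ i ∈ S, p i with hρ
  have hm' : (4 : ℝ) ≤ m := by exact_mod_cast hm
  have hρ8 : 8 < ρ := by linarith
  have hc := cheb h0 S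
  rw [← hρ] at hc
  have h2 : ∑ Z ∈ (univ : Finset (Finset ι)).filter (fun Z => ¬ m ≤ (S ∩ Z).card), bern p Z ≤
      1 / 2 := by
    have h3 : ∀ Z ∈ (univ : Finset (Finset ι)).filter (fun Z => ¬ m ≤ (S ∩ Z).card), bern p Z ≤
        4 / ρ ^ 2 * (bern p Z * (∑ i ∈ S, (if i ∈ Z then (1 : ℝ) else 0) - ρ) ^ 2) := by
      intro Z hZ
      rw [Finset.mem_filter, not_le] at hZ
      have h4 : ((S ∩ Z).card : ℝ) < m := by exact_mod_cast hZ.2
      rw [card_eq] at h4
      have h5 : ρ / 2 ≤ ρ - ∑ i ∈ S, (if i ∈ Z then (1 : ℝ) else 0) := by linarith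
      have h6 : (ρ / 2) ^ 2 ≤ (∑ i ∈ S, (if i ∈ Z then (1 : ℝ) else 0) - ρ) ^ 2 := by
        rw [← neg_sq (∑ i ∈ S, (if i ∈ Z then (1 : ℝ) else 0) - ρ), neg_sub]
        exact pow_le_pow_left₀ (by linarith) h5 2
      have h7 : 1 ≤ 4 / ρ ^ 2 * (∑ i ∈ S, (if i ∈ Z then (1 : ℝ) else 0) - ρ) ^ 2 := by
        calc (1 : ℝ) = 4 / ρ ^ 2 * (ρ / 2) ^ 2 := by
              field_simp
              norm_num
          _ ≤ _ := by gcongr
      have h8 := bern_nonneg h0 h1 Z
      calc bern p Z = bern p Z * 1 := (mul_one _).symm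
        _ ≤ bern p Z * (4 / ρ ^ 2 * (∑ i ∈ S, (if i ∈ Z then (1 : ℝ) else 0) - ρ) ^ 2) := by
            gcongr
        _ = _ := by ring
    refine (Finset.sum_le_sum h3).trans ?_
    rw [← Finset.mul_sum]
    have h4 : ∑ Z ∈ (univ : Finset (Finset ι)).filter (fun Z => ¬ m ≤ (S ∩ Z).card),
        bern p Z * (∑ i ∈ S, (if i ∈ Z then (1 : ℝ) else 0) - ρ) ^ 2 ≤ ρ := by
      refine le_trans ?_ hc
      exact Finset.sum_le_sum_of_subset_of_nonneg (Finset.subset_univ _)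
        fun Z _ _ => mul_nonneg (bern_nonneg h0 h1 Z) (sq_nonneg _)
    calc 4 / ρ ^ 2 * _ ≤ 4 / ρ ^ 2 * ρ := by gcongr
      _ = 4 / ρ := by field_simp
      _ ≤ 4 / 8 := by gcongr
      _ = 1 / 2 := by norm_num
  have h5 := Finset.sum_filter_add_sum_filter_not (univ : Finset (Finset ι))
    (fun Z => m ≤ (S ∩ Z).card) (fun Z => bern p Z)
  rw [sum_bern] at h5
  linarith

/-! ### Exchanging coordinates -/

/-- exchange the coordinates in `B` -/
noncomputable def sw (B : Finset ι) (q : Finset ι × Finset ι) : Finset ι × Finset ι :=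
  ((q.1 \ B) ∪ (q.2 ∩ B), (q.2 \ B) ∪ (q.1 ∩ B))

lemma mem_sw1 {B : Finset ι} {q : Finset ι × Finset ι} {i : ι} :
    i ∈ (sw B q).1 ↔ (if i ∈ B then i ∈ q.2 else i ∈ q.1) := by
  unfold sw
  simp only [Finset.mem_union, Finset.mem_sdiff, Finset.mem_inter]
  split_ifs with h <;> simp [h]

lemma mem_sw2 {B : Finset ι} {q : Finset ι × Finset ι} {i : ι} :
    i ∈ (sw B q).2 ↔ (if i ∈ B then i ∈ q.1 else i ∈ q.2) := by
  unfold sw
  simp only [Finset.mem_union, Finset.mem_sdiff, Finset.mem_inter]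
  split_ifs with h <;> simp [h]

lemma sw_sw (B : Finset ι) : Function.Involutive (sw B) := by
  intro q
  apply Prod.ext
  · ext i
    rw [mem_sw1, mem_sw1, mem_sw2]
    split_ifs <;> rfl
  · ext i
    rw [mem_sw2, mem_sw1, mem_sw2]
    split_ifs <;> rfl

lemma bern_sw (p : ι → ℝ) (B : Finset ι) (q : Finset ι × Finset ι) :
    bern p (sw B q).1 * bern p (sw B q).2 = bern p q.1 * bern p q.2 := by
  unfold bern
  rw [← Finset.prod_mul_distrib, ← Finset.prod_mul_distrib]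
  refine Finset.prod_congr rfl fun i _ => ?_
  by_cases hB : i ∈ B
  · have e1 : i ∈ (sw B q).1 ↔ i ∈ q.2 := by rw [mem_sw1, if_pos hB]
    have e2 : i ∈ (sw B q).2 ↔ i ∈ q.1 := by rw [mem_sw2, if_pos hB]
    simp only [e1, e2]
    rw [mul_comm]
  · have e1 : i ∈ (sw B q).1 ↔ i ∈ q.1 := by rw [mem_sw1, if_neg hB]
    have e2 : i ∈ (sw B q).2 ↔ i ∈ q.2 := by rw [mem_sw2, if_neg hB]
    simp only [e1, e2]

/-! ### Counting -/

lemma card_fix (W C : Finset ι) :
    ((univ : Finset (Finset ι)).filter (fun B => B ∩ W = C)).card ≤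
      2 ^ (Fintype.card ι - W.card) := by
  have h1 : ((univ : Finset ι) \ W).powerset.card = 2 ^ (Fintype.card ι - W.card) := by
    rw [Finset.card_powerset, Finset.card_sdiff_of_subset (Finset.subset_univ _),
      Finset.card_univ]
  rw [← h1]
  refine Finset.card_le_card_of_injOn (fun B => B \ W) ?_ ?_
  · intro B _
    rw [Finset.mem_coe, Finset.mem_powerset]
    exact Finset.sdiff_subset_sdiff (Finset.subset_univ _) (Finset.Subset.refl _)
  · intro B hB B' hB' h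
    rw [Finset.mem_coe, Finset.mem_filter] at hB hB'
    simp only at h
    rw [← Finset.sdiff_union_inter B W, ← Finset.sdiff_union_inter B' W, h, hB.2, hB'.2]

/-- the traces on `J` -/
noncomputable def tr (𝒮 : Finset (Finset ι)) (J : Finset ι) : Finset (Finset ι) :=
  𝒮.image fun S => S ∩ J

lemma card_lt_pow (J : Finset ι) (D : ℕ) :
    (J.powerset.filter (fun T => T.card < D)).card ≤ (J.card + 1) ^ D := by
  have h1 : J.powerset.filter (fun T => T.card < D) ⊆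
      (range D).biUnion fun i => J.powersetCard i := by
    intro T hT
    rw [Finset.mem_filter, Finset.mem_powerset] at hT
    rw [Finset.mem_biUnion]
    exact ⟨T.card, Finset.mem_range.2 hT.2, Finset.mem_powersetCard.2 ⟨hT.1, rfl⟩⟩
  refine (Finset.card_le_card h1).trans (Finset.card_biUnion_le.trans ?_)
  rw [add_pow]
  refine (Finset.sum_le_sum (g := fun i => J.card ^ i * 1 ^ (D - i) * D.choose i) ?_).trans
    (Finset.sum_le_sum_of_subset_of_nonneg (Finset.range_mono (Nat.le_succ D))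
      fun _ _ _ => Nat.zero_le _)
  intro i hi
  rw [Finset.mem_range] at hi
  rw [Finset.card_powersetCard, one_pow, mul_one]
  calc J.card.choose i ≤ J.card ^ i * 1 := by rw [mul_one]; exact Nat.choose_le_pow _ _
    _ ≤ J.card ^ i * D.choose i := Nat.mul_le_mul_left _ (Nat.choose_pos hi.le)

lemma card_tr {D : ℕ} {U : Finset ι} {𝒮 : Finset (Finset ι)} (hU : ∀ S ∈ 𝒮, S ⊆ U)
    (hD : ∀ T ⊆ U, D ≤ T.card → ¬ 𝒮.Shatters T) (J : Finset ι) :
    (tr 𝒮 J).card ≤ ((J ∩ U).card + 1) ^ D := by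
  refine (Finset.card_le_card_shatterer _).trans (le_trans (Finset.card_le_card ?_)
    (card_lt_pow (J ∩ U) D))
  intro T hT
  rw [Finset.mem_shatterer] at hT
  obtain ⟨W, hW, hTW⟩ := hT.exists_superset
  unfold tr at hW
  rw [Finset.mem_image] at hW
  obtain ⟨S, hS, rfl⟩ := hW
  have hTS : T ⊆ S := hTW.trans Finset.inter_subset_left
  have hTJ : T ⊆ J := hTW.trans Finset.inter_subset_right
  have hTU : T ⊆ U := hTS.trans (hU S hS)
  rw [Finset.mem_filter, Finset.mem_powerset]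
  refine ⟨Finset.subset_inter hTJ hTU, ?_⟩
  by_contra hcard
  push Not at hcard
  refine hD T hTU hcard ?_
  intro R hR
  obtain ⟨W, hW, hTW'⟩ := hT hR
  unfold tr at hW
  rw [Finset.mem_image] at hW
  obtain ⟨S', hS', rfl⟩ := hW
  refine ⟨S', hS', ?_⟩
  rw [← hTW']
  ext i
  simp only [Finset.mem_inter]
  constructor
  · rintro ⟨h1, h2⟩
    exact ⟨h1, h2, hTJ h1⟩
  · rintro ⟨h1, h2, -⟩
    exact ⟨h1, h2⟩

/-- the event `E2` -/
def Ev (𝒮 : Finset (Finset ι)) (m : ℕ) (q : Finset ι × Finset ι) : Prop :=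
  ∃ S ∈ 𝒮, Disjoint S q.1 ∧ m ≤ (S ∩ q.2).card

lemma count_sw (𝒮 : Finset (Finset ι)) (m : ℕ) (q : Finset ι × Finset ι) :
    ((univ : Finset (Finset ι)).filter (fun B => Ev 𝒮 m (sw B q))).card * 2 ^ m ≤
      (tr 𝒮 (q.1 ∪ q.2)).card * 2 ^ Fintype.card ι := by
  set J : Finset ι := q.1 ∪ q.2 with hJ
  have hsub : (univ : Finset (Finset ι)).filter (fun B => Ev 𝒮 m (sw B q)) ⊆
      ((tr 𝒮 J).filter (fun W => m ≤ W.card)).biUnion fun W =>
        (univ : Finset (Finset ι)).filter (fun B => B ∩ W = W ∩ q.1) := by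
    intro B hB
    rw [Finset.mem_filter] at hB
    obtain ⟨S, hS, hdis, hm⟩ := hB.2
    rw [Finset.mem_biUnion]
    have hout : ∀ i ∈ S, i ∉ (sw B q).1 := fun i hi h => Finset.disjoint_left.1 hdis hi h
    refine ⟨S ∩ J, ?_, ?_⟩
    · rw [Finset.mem_filter]
      refine ⟨Finset.mem_image_of_mem _ hS, hm.trans (Finset.card_le_card ?_)⟩
      intro i hi
      rw [Finset.mem_inter, mem_sw2] at hi
      rw [Finset.mem_inter, hJ, Finset.mem_union]
      refine ⟨hi.1, ?_⟩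
      by_cases hB : i ∈ B
      · rw [if_pos hB] at hi
        exact Or.inl hi.2
      · rw [if_neg hB] at hi
        exact Or.inr hi.2
    · rw [Finset.mem_filter]
      refine ⟨Finset.mem_univ _, ?_⟩
      ext i
      simp only [Finset.mem_inter]
      constructor
      · rintro ⟨hiB, hiS, hiJ⟩
        refine ⟨⟨hiS, hiJ⟩, ?_⟩
        have h1 := hout i hiS
        rw [mem_sw1, if_pos hiB] at h1
        rw [hJ, Finset.mem_union] at hiJ
        tauto
      · rintro ⟨⟨hiS, hiJ⟩, hi1⟩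
        refine ⟨?_, hiS, hiJ⟩
        by_contra hiB
        have h1 := hout i hiS
        rw [mem_sw1, if_neg hiB] at h1
        exact h1 hi1
  have h1 : ∀ W ∈ (tr 𝒮 J).filter (fun W => m ≤ W.card),
      ((univ : Finset (Finset ι)).filter (fun B => B ∩ W = W ∩ q.1)).card ≤
        2 ^ (Fintype.card ι - m) := by
    intro W hW
    rw [Finset.mem_filter] at hW
    refine (card_fix W _).trans (Nat.pow_le_pow_right two_pos ?_)
    have := hW.2
    omega
  have h2 := (Finset.card_le_card hsub).trans (Finset.card_biUnion_le_card_mul _ _ _ h1)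
  rcases Nat.lt_or_ge (Fintype.card ι) m with hlt | hge
  · have h3 : (tr 𝒮 J).filter (fun W => m ≤ W.card) = ∅ := by
      rw [Finset.filter_eq_empty_iff]
      intro W _
      have := Finset.card_le_univ W
      omega
    rw [h3, Finset.card_empty, zero_mul] at h2
    have h4 : ((univ : Finset (Finset ι)).filter (fun B => Ev 𝒮 m (sw B q))).card = 0 := by
      omega
    rw [h4, zero_mul]
    exact Nat.zero_le _
  · calc ((univ : Finset (Finset ι)).filter (fun B => Ev 𝒮 m (sw B q))).card * 2 ^ m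
        ≤ (((tr 𝒮 J).filter (fun W => m ≤ W.card)).card * 2 ^ (Fintype.card ι - m)) * 2 ^ m :=
          Nat.mul_le_mul_right _ h2
      _ = ((tr 𝒮 J).filter (fun W => m ≤ W.card)).card * 2 ^ Fintype.card ι := by
          rw [mul_assoc, ← pow_add, Nat.sub_add_cancel hge]
      _ ≤ _ := Nat.mul_le_mul_right _ (Finset.card_filter_le _ _)

/-- the weight of a pair -/
noncomputable def w2 (p : ι → ℝ) (q : Finset ι × Finset ι) : ℝ := bern p q.1 * bern p q.2

lemma w2_nonneg {p : ι → ℝ} (h0 : ∀ i, 0 ≤ p i) (h1 : ∀ i, p i ≤ 1) (q : Finset ι × Finset ι) :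
    0 ≤ w2 p q := mul_nonneg (bern_nonneg h0 h1 _) (bern_nonneg h0 h1 _)

lemma sum_w2 (p : ι → ℝ) (f g : Finset ι → ℝ) :
    ∑ q : Finset ι × Finset ι, w2 p q * (f q.1 * g q.2) =
      (∑ Z : Finset ι, bern p Z * f Z) * ∑ Z : Finset ι, bern p Z * g Z := by
  rw [Finset.sum_mul_sum, Fintype.sum_prod_type]
  refine Finset.sum_congr rfl fun x _ => Finset.sum_congr rfl fun y _ => ?_
  unfold w2
  ring

/-- symmetrisation -/
lemma symm (p : ι → ℝ) (𝒮 : Finset (Finset ι)) (m : ℕ) :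
    2 ^ Fintype.card ι * ∑ q : Finset ι × Finset ι, w2 p q * (if Ev 𝒮 m q then 1 else 0) =
      ∑ q : Finset ι × Finset ι, w2 p q *
        ((univ : Finset (Finset ι)).filter (fun B => Ev 𝒮 m (sw B q))).card := by
  have h1 : ∀ B : Finset ι, ∑ q : Finset ι × Finset ι, w2 p q * (if Ev 𝒮 m q then (1 : ℝ) else 0) =
      ∑ q : Finset ι × Finset ι, w2 p q * (if Ev 𝒮 m (sw B q) then 1 else 0) := by
    intro B
    rw [← Equiv.sum_comp (Function.Involutive.toPerm (sw B) (sw_sw B))]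
    refine Finset.sum_congr rfl fun q _ => ?_
    change w2 p (sw B q) * _ = _
    have h2 : w2 p (sw B q) = w2 p q := bern_sw p B q
    rw [h2]
    rfl
  have h2 : ∑ _B : Finset ι, ∑ q : Finset ι × Finset ι, w2 p q *
      (if Ev 𝒮 m q then (1 : ℝ) else 0) = 2 ^ Fintype.card ι *
        ∑ q : Finset ι × Finset ι, w2 p q * (if Ev 𝒮 m q then 1 else 0) := by
    rw [Finset.sum_const, Finset.card_univ, Fintype.card_finset, nsmul_eq_mul]
    push_cast
    rfl
  rw [← h2, Finset.sum_congr rfl fun B _ => h1 B, Finset.sum_comm]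
  refine Finset.sum_congr rfl fun q _ => ?_
  rw [← Finset.mul_sum, Finset.card_filter]
  push_cast
  rfl

/-- the size of the sample -/
lemma markov {p : ι → ℝ} (h0 : ∀ i, 0 ≤ p i) (h1 : ∀ i, p i ≤ 1) {U : Finset ι} {r : ℝ}
    (hr : 0 < r) (hU : ∑ i ∈ U, p i ≤ r) :
    ∑ q ∈ (univ : Finset (Finset ι × Finset ι)).filter
      (fun q => 32 * r < (((q.1 ∪ q.2) ∩ U).card : ℝ)), w2 p q ≤ 1 / 16 := by
  have h2 : ∀ q ∈ (univ : Finset (Finset ι × Finset ι)).filter
      (fun q => 32 * r < (((q.1 ∪ q.2) ∩ U).card : ℝ)), w2 p q ≤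
      (32 * r)⁻¹ * (w2 p q * ((∑ i ∈ U, if i ∈ q.1 then (1 : ℝ) else 0) * 1) +
        w2 p q * (1 * ∑ i ∈ U, if i ∈ q.2 then (1 : ℝ) else 0)) := by
    intro q hq
    rw [Finset.mem_filter] at hq
    have h3 : (((q.1 ∪ q.2) ∩ U).card : ℝ) ≤ (∑ i ∈ U, if i ∈ q.1 then (1 : ℝ) else 0) +
        ∑ i ∈ U, if i ∈ q.2 then (1 : ℝ) else 0 := by
      rw [← card_eq, ← card_eq, Finset.union_inter_distrib_right, Finset.inter_comm q.1,
        Finset.inter_comm q.2]
      exact_mod_cast Finset.card_union_le _ _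
    have h4 : 32 * r ≤ (∑ i ∈ U, if i ∈ q.1 then (1 : ℝ) else 0) +
        ∑ i ∈ U, if i ∈ q.2 then (1 : ℝ) else 0 := hq.2.le.trans h3
    have h5 := w2_nonneg h0 h1 q
    have h6 : w2 p q * (32 * r) ≤ w2 p q * ((∑ i ∈ U, if i ∈ q.1 then (1 : ℝ) else 0) +
        ∑ i ∈ U, if i ∈ q.2 then (1 : ℝ) else 0) := mul_le_mul_of_nonneg_left h4 h5
    rw [inv_mul_eq_div, le_div_iff₀ (by positivity)]
    linarith
  refine (Finset.sum_le_sum h2).trans ?_
  rw [← Finset.mul_sum]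
  have h7 : ∑ q ∈ (univ : Finset (Finset ι × Finset ι)).filter
      (fun q => 32 * r < (((q.1 ∪ q.2) ∩ U).card : ℝ)),
      (w2 p q * ((∑ i ∈ U, if i ∈ q.1 then (1 : ℝ) else 0) * 1) +
        w2 p q * (1 * ∑ i ∈ U, if i ∈ q.2 then (1 : ℝ) else 0)) ≤ 2 * r := by
    refine (Finset.sum_le_sum_of_subset_of_nonneg (Finset.subset_univ _) ?_).trans ?_
    · intro q _ _
      have h5 := w2_nonneg h0 h1 q
      have h8 : ∀ Z : Finset ι, 0 ≤ ∑ i ∈ U, if i ∈ Z then (1 : ℝ) else 0 := fun Z =>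
        Finset.sum_nonneg fun i _ => by split_ifs <;> norm_num
      have h9 := h8 q.1
      have h10 := h8 q.2
      positivity
    · rw [Finset.sum_add_distrib, sum_w2 p (fun Z => ∑ i ∈ U, if i ∈ Z then (1 : ℝ) else 0)
        (fun _ => 1), sum_w2 p (fun _ => 1) (fun Z => ∑ i ∈ U, if i ∈ Z then (1 : ℝ) else 0)]
      simp only [mul_one]
      rw [sum_bern, first]
      linarith
  calc (32 * r)⁻¹ * _ ≤ (32 * r)⁻¹ * (2 * r) := by gcongr
    _ = 1 / 16 := by
      field_simp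
      norm_num

/-- the event `E2` is rare -/
lemma rare {p : ι → ℝ} (h0 : ∀ i, 0 ≤ p i) (h1 : ∀ i, p i ≤ 1) {D m : ℕ} {U : Finset ι}
    {𝒮 : Finset (Finset ι)} {r : ℝ} (hr : 0 < r) (hUr : ∑ i ∈ U, p i ≤ r)
    (hU : ∀ S ∈ 𝒮, S ⊆ U) (hD : ∀ T ⊆ U, D ≤ T.card → ¬ 𝒮.Shatters T)
    (hm : (32 * r + 1) ^ D ≤ 1 / 16 * 2 ^ m) :
    ∑ q : Finset ι × Finset ι, w2 p q * (if Ev 𝒮 m q then 1 else 0) ≤ 1 / 8 := by
  have hN : (0 : ℝ) < 2 ^ Fintype.card ι := by positivity
  have h2m : (0 : ℝ) < 2 ^ m := by positivity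
  have hkey : ∀ q : Finset ι × Finset ι,
      w2 p q * ((univ : Finset (Finset ι)).filter (fun B => Ev 𝒮 m (sw B q))).card ≤
      2 ^ Fintype.card ι * ((if 32 * r < (((q.1 ∪ q.2) ∩ U).card : ℝ) then w2 p q else 0) +
        1 / 16 * w2 p q) := by
    intro q
    have hw := w2_nonneg h0 h1 q
    set c : ℕ := ((univ : Finset (Finset ι)).filter (fun B => Ev 𝒮 m (sw B q))).card with hc
    by_cases hq : 32 * r < (((q.1 ∪ q.2) ∩ U).card : ℝ)
    · rw [if_pos hq]
      have h2 : (c : ℝ) ≤ 2 ^ Fintype.card ι := by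
        have h3 : c ≤ 2 ^ Fintype.card ι := by
          rw [hc]
          refine (Finset.card_le_univ _).trans (le_of_eq ?_)
          exact Fintype.card_finset
        exact_mod_cast h3
      calc w2 p q * (c : ℝ) ≤ w2 p q * 2 ^ Fintype.card ι := by gcongr
        _ = 2 ^ Fintype.card ι * (w2 p q + 0) := by ring
        _ ≤ _ := by gcongr; positivity
    · rw [if_neg hq]
      push Not at hq
      have h2 := count_sw 𝒮 m q
      rw [← hc] at h2
      have h3 := card_tr hU hD (q.1 ∪ q.2)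
      have h4 : (c : ℝ) * 2 ^ m ≤ (32 * r + 1) ^ D * 2 ^ Fintype.card ι := by
        calc (c : ℝ) * 2 ^ m ≤ ((tr 𝒮 (q.1 ∪ q.2)).card : ℝ) * 2 ^ Fintype.card ι := by
              exact_mod_cast h2
          _ ≤ (((q.1 ∪ q.2) ∩ U).card + 1 : ℝ) ^ D * 2 ^ Fintype.card ι := by
              gcongr
              exact_mod_cast h3
          _ ≤ _ := by gcongr
      have h5 : (c : ℝ) ≤ 1 / 16 * 2 ^ Fintype.card ι := by
        have h6 : (c : ℝ) * 2 ^ m ≤ (1 / 16 * 2 ^ Fintype.card ι) * 2 ^ m := by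
          calc (c : ℝ) * 2 ^ m ≤ (32 * r + 1) ^ D * 2 ^ Fintype.card ι := h4
            _ ≤ (1 / 16 * 2 ^ m) * 2 ^ Fintype.card ι := by gcongr
            _ = _ := by ring
        exact le_of_mul_le_mul_right h6 h2m
      calc w2 p q * (c : ℝ) ≤ w2 p q * (1 / 16 * 2 ^ Fintype.card ι) := by gcongr
        _ = _ := by ring
  have h2 := symm p 𝒮 m
  have h3 : ∑ q : Finset ι × Finset ι, w2 p q *
      ((univ : Finset (Finset ι)).filter (fun B => Ev 𝒮 m (sw B q))).card ≤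
      2 ^ Fintype.card ι * (1 / 16 + 1 / 16) := by
    refine (Finset.sum_le_sum fun q _ => hkey q).trans ?_
    rw [← Finset.mul_sum, Finset.sum_add_distrib, ← Finset.mul_sum, ← Finset.sum_filter]
    have h4 := markov h0 h1 hr hUr
    have h5 : ∑ q : Finset ι × Finset ι, w2 p q = 1 := by
      have := sum_w2 p (fun _ => 1) (fun _ => 1)
      simp only [mul_one] at this
      rw [this, sum_bern, one_mul]
    rw [h5]
    gcongr
    linarith
  rw [← h2] at h3
  have h4 := le_of_mul_le_mul_left h3 hN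
  linarith

end NetAux

open NetAux in
theorem stNet : StNet := by
  intro D δ hδ
  -- choice of `m`
  obtain ⟨m, hm4, hmδ, hm⟩ : ∃ m : ℕ, 4 ≤ m ∧ δ ≤ 2 * m ∧
      (32 * (2 * m / δ) + 1) ^ D ≤ 1 / 16 * 2 ^ m := by
    have hC : 0 < 64 / δ + 1 := by positivity
    have ht := tendsto_pow_const_div_const_pow_of_one_lt D (r := (2 : ℝ)) one_lt_two
    have hev := ht.eventually (gt_mem_nhds (show (0 : ℝ) < 1 / 16 / (64 / δ + 1) ^ D by positivity))
    obtain ⟨m, h1, h2, h3⟩ := (hev.and ((Filter.eventually_ge_atTop 4).and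
      (Filter.eventually_ge_atTop ⌈δ⌉₊))).exists
    have hm1 : (1 : ℝ) ≤ m := by
      have : 1 ≤ m := by omega
      exact_mod_cast this
    refine ⟨m, h2, ?_, ?_⟩
    · have : δ ≤ m := (Nat.le_ceil δ).trans (by exact_mod_cast h3)
      linarith
    · rw [div_lt_iff₀ (by positivity)] at h1
      calc (32 * (2 * (m : ℝ) / δ) + 1) ^ D ≤ ((64 / δ + 1) * m) ^ D := by
            have : 32 * (2 * (m : ℝ) / δ) + 1 ≤ (64 / δ + 1) * m := by
              have e : 32 * (2 * (m : ℝ) / δ) = 64 / δ * m := by ring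
              rw [e, add_mul]
              linarith
            gcongr
        _ = (64 / δ + 1) ^ D * (m : ℝ) ^ D := mul_pow _ _ _
        _ ≤ (64 / δ + 1) ^ D * (1 / 16 / (64 / δ + 1) ^ D * 2 ^ m) := by gcongr
        _ = _ := by field_simp
  set r : ℝ := 2 * m / δ with hr
  have hm0 : (0 : ℝ) < m := by
    have : 0 < m := by omega
    exact_mod_cast this
  have hr1 : 1 ≤ r := by
    rw [hr, le_div_iff₀ hδ]
    linarith
  have hrδ : r * δ = 2 * m := by
    rw [hr]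
    field_simp
  refine ⟨r, hr1, fun ι _ ζ U 𝒮 hζ hζ1 hζU hS hD => ?_⟩
  set p : ι → ℝ := fun i => r * ζ i with hp
  have h0 : ∀ i, 0 ≤ p i := fun i => mul_nonneg (by linarith) (hζ i)
  have hUr : ∑ i ∈ U, p i ≤ r := by
    rw [hp, ← Finset.mul_sum]
    nlinarith
  have hrare := rare h0 hζ1 (by linarith) hUr (fun S h => (hS S h).1) hD hm
  have h1 : ∑ Z ∈ (univ : Finset (Finset ι)).filter (fun Z => ∃ S ∈ 𝒮, Disjoint S Z),
      bern p Z ≤ 2 * ∑ q : Finset ι × Finset ι, w2 p q * (if Ev 𝒮 m q then 1 else 0) := by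
    rw [Fintype.sum_prod_type, Finset.mul_sum, Finset.sum_filter]
    refine Finset.sum_le_sum fun Z _ => ?_
    split_ifs with h
    · obtain ⟨S, hSS, hdis⟩ := h
      have h2 : 2 * (m : ℝ) < ∑ i ∈ S, p i := by
        rw [hp, ← Finset.mul_sum, ← hrδ]
        exact mul_lt_mul_of_pos_left (hS S hSS).2 (by linarith)
      have h3 := half h0 hζ1 hm4 h2
      have h4 : ∑ Z' ∈ (univ : Finset (Finset ι)).filter (fun Z' => m ≤ (S ∩ Z').card),
          bern p Z * bern p Z' ≤ ∑ Z' : Finset ι, w2 p (Z, Z') *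
            (if Ev 𝒮 m (Z, Z') then 1 else 0) := by
        rw [Finset.sum_filter]
        refine Finset.sum_le_sum fun Z' _ => ?_
        split_ifs with h5 h6 h6
        · rw [mul_one]
          exact le_rfl
        · exact absurd ⟨S, hSS, hdis, h5⟩ h6
        · rw [mul_one]
          exact w2_nonneg h0 hζ1 _
        · rw [mul_zero]
      rw [← Finset.mul_sum] at h4
      have h5 := bern_nonneg h0 hζ1 Z
      nlinarith
    · refine mul_nonneg two_pos.le (Finset.sum_nonneg fun Z' _ => mul_nonneg (w2_nonneg h0 hζ1 _) ?_)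
      split_ifs <;> norm_num
  linarith

end Pool.Agent.Lib.FracGS
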