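import Pool.Agent.Lib.FracGS.Base
import Pool.Agent.Lib.FracGS.Spec

/-!
# FG-10: the choice of the sparse hitting set
-/

set_option autoImplicit false

namespace Pool.Agent.Lib.FracGS

open Finset Classical

namespace PickZAux

variable {V : Type} [Fintype V] {G : SimpleGraph V} {A X : Finset V} {ζ α : V → ℝ}

/-- The family of the heavy common neighbourhoods of `x`. -/
noncomputable def fam (G : SimpleGraph V) (A X : Finset V) (ζ : V → ℝ) (δ : ℝ) (x : V) :
    Finset (Finset V) :=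
  (X.filter (fun p => δ < om G A ζ x p)).image
    (fun p => A.filter (fun u => G.Adj x u ∧ G.Adj p u))

/-- `x` is good for `Z`. -/
def Good (G : SimpleGraph V) (A X : Finset V) (ζ : V → ℝ) (δ : ℝ) (N : ℕ) (x : V)
    (Z : Finset V) : Prop :=
  (¬ ∃ S ∈ fam G A X ζ δ x, Disjoint S Z) ∧ ((nb G A x).filter (fun u => u ∈ Z)).card ≤ N

lemma ite_nn {b : ℝ} (hb : 0 ≤ b) (P : Prop) [Decidable P] : 0 ≤ if P then b else 0 := by
  split_ifs
  · exact hb
  · exact le_rfl

lemma markov {p : V → ℝ} (h0 : ∀ i, 0 ≤ p i) (h1 : ∀ i, p i ≤ 1) (U : Finset V) {r : ℝ}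
    (hU : ∑ i ∈ U, p i ≤ r) {N : ℕ} (hN : 4 * r ≤ N) :
    ∑ Z ∈ (Finset.univ : Finset (Finset V)).filter
      (fun Z => ¬ (U.filter (fun u => u ∈ Z)).card ≤ N), bern p Z ≤ 1 / 4 := by
  have hr : 0 ≤ r := le_trans (Finset.sum_nonneg fun i _ => h0 i) hU
  have h2 := sum_bern_card p (fun _ => (1 : ℝ)) U
  simp only [mul_one] at h2
  have h3 : ((N : ℝ) + 1) * ∑ Z ∈ (Finset.univ : Finset (Finset V)).filter
      (fun Z => ¬ (U.filter (fun u => u ∈ Z)).card ≤ N), bern p Z ≤ r := by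
    refine le_trans ?_ (h2.trans_le hU)
    rw [Finset.mul_sum, Finset.sum_filter]
    refine Finset.sum_le_sum fun Z _ => ?_
    have hb := bern_nonneg h0 h1 Z
    have hs : ∑ i ∈ U.filter (fun i => i ∈ Z), (1 : ℝ) =
        ((U.filter (fun i => i ∈ Z)).card : ℝ) := by
      rw [Finset.sum_const, nsmul_eq_mul, mul_one]
    rw [hs]
    by_cases hc : (U.filter (fun u => u ∈ Z)).card ≤ N
    · rw [if_neg (not_not.mpr hc)]
      exact mul_nonneg hb (Nat.cast_nonneg _)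
    · rw [if_pos hc]
      rw [not_le] at hc
      have hc' : (N : ℝ) + 1 ≤ ((U.filter (fun i => i ∈ Z)).card : ℝ) := by
        exact_mod_cast hc
      rw [mul_comm]
      exact mul_le_mul_of_nonneg_left hc' hb
  have hN0 : (0 : ℝ) ≤ N := Nat.cast_nonneg N
  have hpos : (0 : ℝ) < (N : ℝ) + 1 := by linarith
  by_contra hcon
  rw [not_le] at hcon
  have h4 : ((N : ℝ) + 1) * (1 / 4) < ((N : ℝ) + 1) *
      ∑ Z ∈ (Finset.univ : Finset (Finset V)).filter
        (fun Z => ¬ (U.filter (fun u => u ∈ Z)).card ≤ N), bern p Z :=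
    mul_lt_mul_of_pos_left hcon hpos
  linarith

lemma good_prob {D : ℕ} {δ r : ℝ} {N : ℕ} (hr1 : 1 ≤ r) (hN : 4 * r ≤ N)
    (hnet : ∀ (ι : Type) [Fintype ι] (ζ : ι → ℝ) (U : Finset ι) (𝒮 : Finset (Finset ι)),
      (∀ i, 0 ≤ ζ i) → (∀ i, r * ζ i ≤ 1) → ∑ i ∈ U, ζ i ≤ 1 →
      (∀ S ∈ 𝒮, S ⊆ U ∧ δ < ∑ i ∈ S, ζ i) →
      (∀ T ⊆ U, D ≤ T.card → ¬ 𝒮.Shatters T) →
      ∑ Z ∈ (Finset.univ : Finset (Finset ι)).filter (fun Z => ∃ S ∈ 𝒮, Disjoint S Z),
        bern (fun i => r * ζ i) Z ≤ 1 / 4)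
    (h0 : ∀ v, 0 ≤ ζ v) (hκ : ∀ a ∈ A, ζ a ≤ 1 / r) {x : V} (hx : wnb G A ζ x ≤ 1)
    (hVC : ∀ U ⊆ A, D ≤ U.card → ∃ T ⊆ U, ∀ p ∈ X, nb G U p ≠ T) :
    1 / 2 ≤ ∑ Z ∈ (Finset.univ : Finset (Finset V)).filter (fun Z => Good G A X ζ δ N x Z),
      bern (fun i => r * (if i ∈ A then ζ i else 0)) Z := by
  have hrpos : 0 < r := by linarith
  set ζ' : V → ℝ := fun i => if i ∈ A then ζ i else 0 with hζ'
  have hz0 : ∀ i, 0 ≤ ζ' i := by
    intro i
    simp only [hζ']
    split_ifs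
    · exact h0 i
    · exact le_rfl
  have hz1 : ∀ i, r * ζ' i ≤ 1 := by
    intro i
    simp only [hζ']
    split_ifs with hi
    · have h1 := mul_le_mul_of_nonneg_left (hκ i hi) hrpos.le
      rw [mul_one_div_cancel hrpos.ne'] at h1
      exact h1
    · rw [mul_zero]
      exact zero_le_one
  have hp0 : ∀ i, 0 ≤ r * ζ' i := fun i => mul_nonneg hrpos.le (hz0 i)
  have hsub : ∀ S ⊆ A, ∑ i ∈ S, ζ' i = ∑ i ∈ S, ζ i := by
    intro S hS
    refine Finset.sum_congr rfl fun i hi => ?_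
    simp only [hζ']
    rw [if_pos (hS hi)]
  have hU : ∑ i ∈ nb G A x, ζ' i ≤ 1 := by
    rw [hsub _ (nb_subset x)]
    exact hx
  have hA := hnet V ζ' (nb G A x) (fam G A X ζ δ x) hz0 hz1 hU (by
    intro S hS
    rw [fam, Finset.mem_image] at hS
    obtain ⟨p, hp, rfl⟩ := hS
    rw [Finset.mem_filter] at hp
    refine ⟨?_, ?_⟩
    · intro u hu
      rw [Finset.mem_filter] at hu
      rw [mem_nb]
      exact ⟨hu.1, hu.2.1⟩
    · rw [hsub _ (Finset.filter_subset _ _)]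
      exact hp.2) (by
    intro T hT hD hsh
    obtain ⟨T', hT', hne⟩ := hVC T (hT.trans (nb_subset x)) hD
    obtain ⟨S, hS, hTS⟩ := hsh hT'
    rw [fam, Finset.mem_image] at hS
    obtain ⟨p, hp, rfl⟩ := hS
    rw [Finset.mem_filter] at hp
    refine hne p hp.1 ?_
    rw [← hTS]
    ext u
    rw [mem_nb, Finset.mem_inter, Finset.mem_filter]
    refine ⟨fun hu => ⟨hu.1, ?_, ?_, hu.2⟩, fun hu => ⟨hu.1, hu.2.2.2⟩⟩
    · exact nb_subset x (hT hu.1)
    · exact (mem_nb.mp (hT hu.1)).2)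
  have hB := markov (p := fun i => r * ζ' i) hp0 hz1 (nb G A x) (r := r) (by
    rw [← Finset.mul_sum]
    calc r * ∑ i ∈ nb G A x, ζ' i ≤ r * 1 := mul_le_mul_of_nonneg_left hU hrpos.le
      _ = r := mul_one r) hN
  have htot := sum_bern (fun i => r * ζ' i)
  have hbn : ∀ Z : Finset V, 0 ≤ bern (fun i => r * ζ' i) Z := fun Z => bern_nonneg hp0 hz1 Z
  have hcover : ∑ Z : Finset V, bern (fun i => r * ζ' i) Z ≤
      ∑ Z ∈ (Finset.univ : Finset (Finset V)).filter (fun Z => Good G A X ζ δ N x Z),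
        bern (fun i => r * ζ' i) Z +
      (∑ Z ∈ (Finset.univ : Finset (Finset V)).filter
        (fun Z => ∃ S ∈ fam G A X ζ δ x, Disjoint S Z), bern (fun i => r * ζ' i) Z +
      ∑ Z ∈ (Finset.univ : Finset (Finset V)).filter
        (fun Z => ¬ ((nb G A x).filter (fun u => u ∈ Z)).card ≤ N),
        bern (fun i => r * ζ' i) Z) := by
    rw [Finset.sum_filter, Finset.sum_filter, Finset.sum_filter, ← Finset.sum_add_distrib,
      ← Finset.sum_add_distrib]
    refine Finset.sum_le_sum fun Z _ => ?_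
    have hb := hbn Z
    have e1 := ite_nn hb (Good G A X ζ δ N x Z)
    have e2 := ite_nn hb (¬ ((nb G A x).filter (fun u => u ∈ Z)).card ≤ N)
    have e3 := ite_nn hb (∃ S ∈ fam G A X ζ δ x, Disjoint S Z)
    by_cases h1 : ∃ S ∈ fam G A X ζ δ x, Disjoint S Z
    · rw [if_pos h1]
      linarith
    · by_cases h2 : ((nb G A x).filter (fun u => u ∈ Z)).card ≤ N
      · have hg : Good G A X ζ δ N x Z := ⟨h1, h2⟩
        rw [if_pos hg]
        linarith
      · rw [if_pos h2]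
        linarith
  linarith

end PickZAux

open PickZAux in
theorem stPickZ (h : StNet) : StPickZ := by
  intro D δ hδ
  obtain ⟨r, hr1, hnet⟩ := h D δ hδ
  have hrpos : 0 < r := by linarith
  refine ⟨1 / r, ⌈4 * r⌉₊, by positivity, ?_⟩
  intro V _ G A X ζ α h0 hκ hα hX hVC
  set N : ℕ := ⌈4 * r⌉₊ with hNdef
  have hN : 4 * r ≤ N := Nat.le_ceil _
  set p : V → ℝ := fun i => r * (if i ∈ A then ζ i else 0) with hp
  have hp0 : ∀ i, 0 ≤ p i := by
    intro i
    simp only [hp]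
    refine mul_nonneg hrpos.le ?_
    split_ifs
    · exact h0 i
    · exact le_rfl
  have hp1 : ∀ i, p i ≤ 1 := by
    intro i
    simp only [hp]
    split_ifs with hi
    · have h1 := mul_le_mul_of_nonneg_left (hκ i hi) hrpos.le
      rw [mul_one_div_cancel hrpos.ne'] at h1
      exact h1
    · rw [mul_zero]
      exact zero_le_one
  have hg : ∀ x ∈ X, 1 / 2 ≤ ∑ Z ∈ (Finset.univ : Finset (Finset V)).filter
      (fun Z => Good G A X ζ δ N x Z), bern p Z := fun x hx =>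
    good_prob hr1 hN hnet h0 hκ (hX x hx) hVC
  obtain ⟨Z, _, hZ⟩ := Finset.exists_max_image (Finset.univ : Finset (Finset V))
    (fun Z => ∑ x ∈ X.filter (fun x => Good G A X ζ δ N x Z), α x) Finset.univ_nonempty
  have havg : ∑ x ∈ X, α x * (1 / 2) ≤ ∑ x ∈ X.filter (fun x => Good G A X ζ δ N x Z), α x := by
    calc ∑ x ∈ X, α x * (1 / 2)
        ≤ ∑ x ∈ X, α x * ∑ Z ∈ (Finset.univ : Finset (Finset V)).filter
            (fun Z => Good G A X ζ δ N x Z), bern p Z :=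
          Finset.sum_le_sum fun x hx => mul_le_mul_of_nonneg_left (hg x hx) (hα x)
      _ = ∑ Z : Finset V, bern p Z * ∑ x ∈ X.filter (fun x => Good G A X ζ δ N x Z), α x := by
          simp only [Finset.sum_filter, Finset.mul_sum]
          rw [Finset.sum_comm]
          refine Finset.sum_congr rfl fun Z _ => Finset.sum_congr rfl fun x _ => ?_
          split_ifs <;> ring
      _ ≤ ∑ Z' : Finset V, bern p Z' *
            ∑ x ∈ X.filter (fun x => Good G A X ζ δ N x Z), α x :=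
          Finset.sum_le_sum fun Z' _ => mul_le_mul_of_nonneg_left (hZ Z' (Finset.mem_univ _))
            (bern_nonneg hp0 hp1 Z')
      _ = ∑ x ∈ X.filter (fun x => Good G A X ζ δ N x Z), α x := by
          rw [← Finset.sum_mul, sum_bern, one_mul]
  refine ⟨Z ∩ A, X.filter (fun x => Good G A X ζ δ N x Z), Finset.inter_subset_right,
    Finset.filter_subset _ _, ?_, ?_, ?_⟩
  · rw [← Finset.sum_mul] at havg
    linarith
  · intro x hx
    rw [Finset.mem_filter] at hx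
    refine le_trans (Finset.card_le_card ?_) hx.2.2
    intro u hu
    rw [mem_nb, Finset.mem_inter] at hu
    rw [Finset.mem_filter, mem_nb]
    exact ⟨⟨hu.1.2, hu.2⟩, hu.1.1⟩
  · intro x hx q hq hom
    rw [Finset.mem_filter] at hx
    have hS : A.filter (fun u => G.Adj x u ∧ G.Adj q u) ∈ fam G A X ζ δ x := by
      rw [fam, Finset.mem_image]
      exact ⟨q, Finset.mem_filter.mpr ⟨hq, hom⟩, rfl⟩
    have hnd : ¬ Disjoint (A.filter (fun u => G.Adj x u ∧ G.Adj q u)) Z := fun hd =>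
      hx.2.1 ⟨_, hS, hd⟩
    rw [Finset.not_disjoint_iff] at hnd
    obtain ⟨z, hz, hzZ⟩ := hnd
    rw [Finset.mem_filter] at hz
    exact ⟨z, Finset.mem_inter.mpr ⟨hzZ, hz.1⟩, hz.2.1.symm, hz.2.2.symm⟩

end Pool.Agent.Lib.FracGS
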